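import Pool.Agent.ThRee.Pre

/-! # The Ree groups `²G₂(q)`: the Bruhat decomposition -/

namespace Pool.Agent.ThRee

open Matrix

variable {K : Type*} [Field K] {σ : K →+* K}

set_option linter.unusedSimpArgs false
set_option linter.unusedSectionVars false

theorem rl_top : Rl σ ![0, 0, 0, 0, 0, 0, 1] ![0, 0, 0, 0, 0, 1, 0] := by
  refine ⟨by simp [bl], by simp [bl], ?_, ?_⟩
  · apply ext7 <;> simp [cr]
  · apply ext7 <;> simp [lg]

theorem rl_bot : Rl σ ![1, 0, 0, 0, 0, 0, 0] ![0, -1, 0, 0, 0, 0, 0] := by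
  refine ⟨by simp [bl], by simp [bl], ?_, ?_⟩
  · apply ext7 <;> simp [cr]
  · apply ext7 <;> simp [lg]

/-- a matrix which fixes the two axes is in the torus -/
theorem Pr.tor {g : SpecialLinearGroup (Fin 7) K} (h : Pr σ g) {c d : K} (h0 : ac g ![1, 0, 0, 0, 0, 0, 0] = ![c, 0, 0, 0, 0, 0, 0]) (h6 : ac g ![0, 0, 0, 0, 0, 0, 1] = ![0, 0, 0, 0, 0, 0, d]) :
    ∃ k : Kˣ, (k : K) = c ∧ g = ht σ k := by
  have cd : c * d = 1 := by
    have := h.b ![1, 0, 0, 0, 0, 0, 0] ![0, 0, 0, 0, 0, 0, 1]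
    rw [h0, h6] at this
    simpa [bl] using this
  have hc : c ≠ 0 := left_ne_zero_of_mul_eq_one cd
  have hd : d ≠ 0 := right_ne_zero_of_mul_eq_one cd
  have hsc : σ c ≠ 0 := by simpa using hc
  have hsd : σ d ≠ 0 := by simpa using hd
  -- the second vector
  have h1 : ac g ![0, -1, 0, 0, 0, 0, 0] = ![0, -(σ c / c), 0, 0, 0, 0, 0] := by
    have r := h.r _ _ rl_bot
    rw [h0] at r
    generalize hq : ac g ![0, -1, 0, 0, 0, 0, 0] = q at r
    have l0 := congrFun r.l 0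
    have l1 := congrFun r.l 1
    have c0 := congrFun r.c 0
    have c1 := congrFun r.c 1
    have c2 := congrFun r.c 2
    have c3 := congrFun r.c 3
    have b0 := h.b ![0, -1, 0, 0, 0, 0, 0] ![0, 0, 0, 0, 0, 0, 1]
    rw [hq, h6] at b0
    simp only [lg, cr, bl, Matrix.cons_val, Pi.zero_apply, map_zero] at l0 l1 c0 c1 c2 c3 b0
    have q1 : q 1 = -(σ c / c) := by
      rw [← l0]
      field_simp
      ring
    have q2 : q 2 = 0 := by
      have : c * q 2 = 0 := by linear_combination -l1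
      exact (mul_eq_zero.1 this).resolve_left hc
    have q3 : q 3 = 0 := by
      have : c * q 3 = 0 := by linear_combination c0
      exact (mul_eq_zero.1 this).resolve_left hc
    have q4 : q 4 = 0 := by
      have : c * q 4 = 0 := by linear_combination c1
      exact (mul_eq_zero.1 this).resolve_left hc
    have q5 : q 5 = 0 := by
      have : c * q 5 = 0 := by linear_combination -c2
      exact (mul_eq_zero.1 this).resolve_left hc
    have q6 : q 6 = 0 := by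
      have : c * q 6 = 0 := by linear_combination c3
      exact (mul_eq_zero.1 this).resolve_left hc
    have q0 : q 0 = 0 := by
      have : q 0 * d = 0 := by linear_combination b0
      exact (mul_eq_zero.1 this).resolve_right hd
    apply ext7 <;> simp only [Matrix.cons_val] <;> assumption
  have h5 : ac g ![0, 0, 0, 0, 0, 1, 0] = ![0, 0, 0, 0, 0, σ d / d, 0] := by
    have r := h.r _ _ rl_top
    rw [h6] at r
    generalize hq : ac g ![0, 0, 0, 0, 0, 1, 0] = q at r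
    have l5 := congrFun r.l 5
    have l6 := congrFun r.l 6
    have c3 := congrFun r.c 3
    have c4 := congrFun r.c 4
    have c5 := congrFun r.c 5
    have c6 := congrFun r.c 6
    have b0 := h.b ![1, 0, 0, 0, 0, 0, 0] ![0, 0, 0, 0, 0, 1, 0]
    rw [hq, h0] at b0
    simp only [lg, cr, bl, Matrix.cons_val, Pi.zero_apply, map_zero] at l5 l6 c3 c4 c5 c6 b0
    have q5 : q 5 = σ d / d := by
      rw [← l6]
      field_simp
      ring
    have q4 : q 4 = 0 := by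
      have : d * q 4 = 0 := by linear_combination l5
      exact (mul_eq_zero.1 this).resolve_left hd
    have q3 : q 3 = 0 := by
      have : d * q 3 = 0 := by linear_combination -c6
      exact (mul_eq_zero.1 this).resolve_left hd
    have q2 : q 2 = 0 := by
      have : d * q 2 = 0 := by linear_combination -c5
      exact (mul_eq_zero.1 this).resolve_left hd
    have q1 : q 1 = 0 := by
      have : d * q 1 = 0 := by linear_combination c4
      exact (mul_eq_zero.1 this).resolve_left hd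
    have q0 : q 0 = 0 := by
      have : d * q 0 = 0 := by linear_combination -c3
      exact (mul_eq_zero.1 this).resolve_left hd
    have q6 : q 6 = 0 := by
      have : c * q 6 = 0 := by linear_combination b0
      exact (mul_eq_zero.1 this).resolve_left hc
    apply ext7 <;> simp only [Matrix.cons_val] <;> assumption
  have e1 : ac g ![0, 1, 0, 0, 0, 0, 0] = ![0, σ c / c, 0, 0, 0, 0, 0] := by
    have e : (![0, 1, 0, 0, 0, 0, 0] : Fin 7 → K) = -![0, -1, 0, 0, 0, 0, 0] := by simp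
    rw [e, ac_neg, h1]
    simp
  have e2 : ac g ![0, 0, 1, 0, 0, 0, 0] = ![0, 0, c * (σ d / d), 0, 0, 0, 0] := by
    have e := h.c ![1, 0, 0, 0, 0, 0, 0] ![0, 0, 0, 0, 0, 1, 0]
    have e' : cr ![1, 0, 0, 0, 0, 0, 0] ![0, 0, 0, 0, 0, 1, 0] = -(![0, 0, 1, 0, 0, 0, 0] : Fin 7 → K) := by
      apply ext7 <;> simp [cr]
    rw [e', ac_neg, h0, h5] at e
    rw [← neg_eq_iff_eq_neg.2 e]
    apply ext7 <;> simp [cr]
  have e3 : ac g ![0, 0, 0, 1, 0, 0, 0] = ![0, 0, 0, 1, 0, 0, 0] := by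
    have e := h.c ![1, 0, 0, 0, 0, 0, 0] ![0, 0, 0, 0, 0, 0, 1]
    have e' : cr ![1, 0, 0, 0, 0, 0, 0] ![0, 0, 0, 0, 0, 0, 1] = (![0, 0, 0, 1, 0, 0, 0] : Fin 7 → K) := by
      apply ext7 <;> simp [cr]
    rw [e', h0, h6] at e
    rw [← e]
    apply ext7 <;> simp [cr, cd]
  have e4 : ac g ![0, 0, 0, 0, 1, 0, 0] = ![0, 0, 0, 0, d * (σ c / c), 0, 0] := by
    have e := h.c ![0, 0, 0, 0, 0, 0, 1] ![0, 1, 0, 0, 0, 0, 0]
    have e' : cr ![0, 0, 0, 0, 0, 0, 1] ![0, 1, 0, 0, 0, 0, 0] = (![0, 0, 0, 0, 1, 0, 0] : Fin 7 → K) := by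
      apply ext7 <;> simp [cr]
    rw [e', h6, e1] at e
    rw [← e]
    apply ext7 <;> simp [cr]
  have hd' : d = c⁻¹ := eq_inv_of_mul_eq_one_right cd
  refine ⟨Units.mk0 c hc, rfl, ?_⟩
  apply ac_ext
  · rw [h0, ac_ht]
    apply ext7 <;> simp [fh]
  · rw [e1, ac_ht]
    apply ext7 <;> simp [fh]
  · rw [e2, ac_ht]
    apply ext7 <;> simp [fh, hd']
    field_simp
  · rw [e3, ac_ht]
    apply ext7 <;> simp [fh]
  · rw [e4, ac_ht]
    apply ext7 <;> simp [fh, hd']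
    field_simp
  · rw [h5, ac_ht]
    apply ext7 <;> simp [fh, hd']
    field_simp
  · rw [h6, ac_ht]
    apply ext7 <;> simp [fh, hd']

/-- the point `e₀` of the ovoid: the elements which fix it -/
theorem Pr.bor (h3 : (3 : K) = 0) (hs : ∀ t : K, σ (σ t) = t ^ 3) {g : SpecialLinearGroup (Fin 7) K} (h : Pr σ g) {c : K} (h0 : ac g ![1, 0, 0, 0, 0, 0, 0] = ![c, 0, 0, 0, 0, 0, 0]) :
    ∃ p ∈ Un σ, ∃ k : Kˣ, (k : K) = c ∧ g = p * ht σ k := by
  set v := ac g ![0, 0, 0, 0, 0, 0, 1] with hv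
  have r := h.r _ _ rl_top
  rw [← hv] at r
  have v6 : c * v 6 = 1 := by
    have := h.b ![1, 0, 0, 0, 0, 0, 0] ![0, 0, 0, 0, 0, 0, 1]
    rw [h0, ← hv] at this
    simpa [bl] using this
  have hv6 : v 6 ≠ 0 := right_ne_zero_of_mul_eq_one v6
  obtain ⟨p, hp, p3, p4, p5⟩ := to_top (σ := σ) hv6
  have hpr := Un_pr h3 hs hp
  have hpt := Un_tri hp
  have p6 : ac p v 6 ≠ 0 := by
    rw [hpt.2]
    exact hv6
  have r2 := hpr.r _ _ r
  have e6 := r2.top h3 p3 p4 p5 p6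
  obtain ⟨k, hk, e⟩ := (hpr.mul h).tor (c := c) (d := ac p v 6) (by
    rw [ac_mul, h0]
    have : (![c, 0, 0, 0, 0, 0, 0] : Fin 7 → K) = c • ![1, 0, 0, 0, 0, 0, 0] := by simp
    rw [this, ac_smul, hpt.1]) (by
    rw [ac_mul, ← hv]
    exact e6)
  refine ⟨p⁻¹, (Un σ).inv_mem hp, k, hk, ?_⟩
  rw [← e]
  group

/-- Bruhat decomposition -/
theorem Pr.bru (h3 : (3 : K) = 0) (hs : ∀ t : K, σ (σ t) = t ^ 3) {g : SpecialLinearGroup (Fin 7) K} (h : Pr σ g) :
    (∃ p ∈ Un σ, ∃ k : Kˣ, g = p * ht σ k) ∨ ∃ p ∈ Un σ, ∃ p' ∈ Un σ, ∃ k : Kˣ, g = p * nn K * p' * ht σ k := by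
  set v := ac g ![1, 0, 0, 0, 0, 0, 0] with hv
  have r := h.r _ _ rl_bot
  rw [← hv] at r
  by_cases h6 : v 6 = 0
  · left
    have e := r.bot h3 h6
    obtain ⟨p, hp, k, -, e2⟩ := h.bor h3 hs (c := v 0) (by rw [← hv]; exact e)
    exact ⟨p, hp, k, e2⟩
  · right
    obtain ⟨p, hp, p3, p4, p5⟩ := to_top (σ := σ) h6
    have hpr := Un_pr h3 hs hp
    have hpt := Un_tri hp
    have p6 : ac p v 6 ≠ 0 := by
      rw [hpt.2]
      exact h6
    have r2 := hpr.r _ _ r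
    have e6 := r2.top h3 p3 p4 p5 p6
    obtain ⟨q, hq, k, -, e⟩ := (pr_nn.mul (hpr.mul h)).bor h3 hs (c := -(ac p v 6)) (by
      rw [ac_mul, ac_mul, ← hv, e6, ac_nn]
      apply ext7 <;> simp [fn])
    refine ⟨p⁻¹, (Un σ).inv_mem hp, q, hq, k, ?_⟩
    have e2 : g = p⁻¹ * (nn K * nn K) * (p * g) := by
      rw [nn_nn]
      group
    calc g = p⁻¹ * (nn K * nn K) * (p * g) := e2
      _ = p⁻¹ * nn K * (nn K * (p * g)) := by group
      _ = _ := by rw [e]; group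

/-- a unipotent element which fixes the point `e₆` is trivial -/
theorem un_eq_one (h3 : (3 : K) = 0) (hs : ∀ t : K, σ (σ t) = t ^ 3) {p : SpecialLinearGroup (Fin 7) K} (hp : p ∈ Un σ) (h : ac p ![0, 0, 0, 0, 0, 0, 1] = ![0, 0, 0, 0, 0, 0, 1]) : p = 1 := by
  obtain ⟨k, hk, e⟩ := (Un_pr h3 hs hp).tor (Un_tri hp).1 h
  have : k = 1 := Units.ext hk
  rw [e, this, ht_one]

/-- the torus part of `n p n` -/
theorem val_eq {p q q' : SpecialLinearGroup (Fin 7) K} {k : Kˣ} (hq : q ∈ Un σ) (hq' : q' ∈ Un σ) (h : nn K * p * nn K = q * nn K * q' * ht σ k) : (k : K) = -(ac p ![0, 0, 0, 0, 0, 0, 1] 0) := by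
  have h1 := congrArg (fun g => ac g ![1, 0, 0, 0, 0, 0, 0] 6) h
  simp only [ac_mul] at h1
  have e1 : ac (ht σ k) ![1, 0, 0, 0, 0, 0, 0] = (k : K) • ![1, 0, 0, 0, 0, 0, 0] := by
    rw [ac_ht]
    apply ext7 <;> simp [fh]
  have e2 : ac (nn K) ![1, 0, 0, 0, 0, 0, 0] = -![0, 0, 0, 0, 0, 0, 1] := by
    rw [ac_nn]
    apply ext7 <;> simp [fn]
  have e3 : ac (nn K) (-ac p ![0, 0, 0, 0, 0, 0, 1]) 6 = ac p ![0, 0, 0, 0, 0, 0, 1] 0 := by
    rw [ac_nn]
    simp [fn]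
  rw [e1, ac_smul, (Un_tri hq').1, ac_smul, ac_smul, e2, ac_neg, e3, ac_neg, Pi.smul_apply, Pi.neg_apply, (Un_tri hq).2] at h1
  rw [h1]
  simp

/-- `n p n` for `p ≠ 1` -/
theorem r0 (h3 : (3 : K) = 0) (hs : ∀ t : K, σ (σ t) = t ^ 3) {p : SpecialLinearGroup (Fin 7) K} (hp : p ∈ Un σ) (h1 : p ≠ 1) :
    ∃ q ∈ Un σ, ∃ q' ∈ Un σ, ∃ k : Kˣ, nn K * p * nn K = q * nn K * q' * ht σ k := by
  rcases ((pr_nn (σ := σ)).mul (Un_pr h3 hs hp) |>.mul pr_nn).bru h3 hs with ⟨q, hq, k, e⟩ | h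
  · exfalso
    apply h1
    have e' := congrArg (fun g => ac g ![1, 0, 0, 0, 0, 0, 0]) e
    simp only [ac_mul] at e'
    have e1 : ac (ht σ k) ![1, 0, 0, 0, 0, 0, 0] = (k : K) • ![1, 0, 0, 0, 0, 0, 0] := by
      rw [ac_ht]
      apply ext7 <;> simp [fh]
    have e2 : ac (nn K) ![1, 0, 0, 0, 0, 0, 0] = -![0, 0, 0, 0, 0, 0, 1] := by
      rw [ac_nn]
      apply ext7 <;> simp [fn]
    rw [e1, ac_smul, (Un_tri hq).1, e2, ac_neg, ac_neg] at e'
    have e3 := congrArg (fun v => ac (nn K) (-v)) e'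
    simp only [neg_neg] at e3
    rw [← ac_mul, nn_nn, ac_one] at e3
    have e4 : ac p ![0, 0, 0, 0, 0, 0, 1] = ![0, 0, 0, 0, 0, 0, (k : K)] := by
      rw [e3, ac_nn]
      apply ext7 <;> simp [fn]
    have e5 := (Un_tri hp).2 ![0, 0, 0, 0, 0, 0, 1]
    rw [e4] at e5
    simp only [Matrix.cons_val] at e5
    rw [e5] at e4
    exact un_eq_one h3 hs hp e4
  · exact h

end Pool.Agent.ThRee
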