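import Pool.Agent.ThRee.Abs
import Pool.Agent.ThRee.Bru

/-! # Thompson's conjecture for the Ree groups `²G₂(q)`, `q > 3` -/

namespace Pool.Agent.ThRee

variable {K : Type*} [Field K] {σ : K →+* K}

set_option linter.unusedSimpArgs false
set_option linter.unusedSectionVars false

/-- `-1` is not a square -/
theorem neg_one (h3 : (3 : K) = 0) (hs : ∀ t : K, σ (σ t) = t ^ 3) {i : K} (hi : i * i = -1) : False := by
  have h1 : σ i * σ i = -1 := by rw [← map_mul, hi, map_neg, map_one]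
  have h2 : (σ i - i) * (σ i + i) = 0 := by linear_combination h1 - hi
  have hi0 : i ≠ 0 := by
    rintro rfl
    rw [mul_zero] at hi
    exact one_ne_zero (neg_eq_zero.1 hi.symm)
  have h4 : σ (σ i) = i := by
    rcases mul_eq_zero.1 h2 with h | h
    · have : σ i = i := by linear_combination h
      rw [this, this]
    · have : σ i = -i := by linear_combination h
      rw [this, map_neg, this, neg_neg]
  rw [hs i] at h4
  have h5 : 2 * i = 0 := by linear_combination i * hi - h4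
  exact hi0 ((mul_eq_zero.1 h5).resolve_left (two_ne h3))

/-- every element of the finite field is a square or minus a square -/
theorem sq_or [Finite K] (h3 : (3 : K) = 0) (hs : ∀ t : K, σ (σ t) = t ^ 3) (k : K) : ∃ s : K, k = s ^ 2 ∨ k = -s ^ 2 := by
  classical
  have : Fintype K := Fintype.ofFinite K
  have hc : ringChar K ≠ 2 := by
    intro h
    apply two_ne h3
    have := CharP.cast_eq_zero K (ringChar K)
    rw [h] at this
    exact_mod_cast this
  by_cases h : IsSquare k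
  · obtain ⟨s, hs⟩ := h
    exact ⟨s, Or.inl (by rw [hs]; ring)⟩
  · have h1 : ¬ IsSquare (-1 : K) := by
      rintro ⟨i, hi⟩
      exact neg_one h3 hs hi.symm
    have hk0 : k ≠ 0 := by
      rintro rfl
      exact h ⟨0, by simp⟩
    have e1 := quadraticChar_neg_one_iff_not_isSquare.2 h
    have e2 := quadraticChar_neg_one_iff_not_isSquare.2 h1
    have e3 : quadraticChar K (-k) = 1 := by
      have : (-k : K) = (-1) * k := by ring
      rw [this, map_mul, e1, e2]
      norm_num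
    obtain ⟨s, hs⟩ := (quadraticChar_one_iff_isSquare (neg_ne_zero.2 hk0)).1 e3
    exact ⟨s, Or.inr (by linear_combination -hs)⟩

/-- the torus part of `n p n` can be prescribed -/
theorem val [Finite K] (h3 : (3 : K) = 0) (hs : ∀ t : K, σ (σ t) = t ^ 3) (k : Kˣ) :
    ∃ p ∈ Un σ, ∃ q ∈ Un σ, ∃ q' ∈ Un σ, nn K * p * nn K = q * nn K * q' * ht σ k := by
  obtain ⟨s, hk⟩ := sq_or h3 hs (k : K)
  have hs0 : s ≠ 0 := by
    rintro rfl
    rcases hk with hk | hk <;> exact k.ne_zero (by rw [hk]; simp)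
  have hsg : σ s ≠ 0 := by simpa using hs0
  have key : ∀ p ∈ Un σ, -(ac p ![0, 0, 0, 0, 0, 0, 1] 0) = (k : K) → ∃ p ∈ Un σ, ∃ q ∈ Un σ, ∃ q' ∈ Un σ, nn K * p * nn K = q * nn K * q' * ht σ k := by
    intro p hp e
    have h1 : p ≠ 1 := by
      rintro rfl
      rw [ac_one] at e
      simp only [Matrix.cons_val, neg_zero] at e
      exact k.ne_zero e.symm
    obtain ⟨q, hq, q', hq', k', e2⟩ := r0 h3 hs hp h1
    have e3 := val_eq hq hq' e2
    rw [e] at e3
    have : k' = k := Units.ext e3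
    exact ⟨p, hp, q, hq, q', hq', by rw [e2, this]⟩
  rcases hk with hk | hk
  · apply key (ga σ s) (ga_mem s)
    rw [ac_ga, hk]
    simp only [fc, Matrix.cons_val]
    ring
  · apply key (al σ (s ^ 2 / σ s)) (al_mem _)
    rw [ac_al, hk]
    simp only [fa, Matrix.cons_val, map_div₀, map_pow, hs]
    field_simp
    ring

variable (σ) in
/-- the unipotent subgroup of the Ree group -/
abbrev UR : Subgroup (Re σ) := (Un σ).subgroupOf (Re σ)

variable (σ) in
/-- the torus of the Ree group -/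
abbrev TR : Subgroup (Re σ) := (To σ).subgroupOf (Re σ)

variable (σ) in
/-- the element of the Weyl group of the Ree group -/
def nR : Re σ := ⟨nn K, nn_mem⟩

theorem mem_UR {g : Re σ} : g ∈ UR σ ↔ (g : Matrix.SpecialLinearGroup (Fin 7) K) ∈ Un σ := Subgroup.mem_subgroupOf

theorem mem_TR {g : Re σ} : g ∈ TR σ ↔ ∃ k : Kˣ, (g : Matrix.SpecialLinearGroup (Fin 7) K) = ht σ k := by
  rw [Subgroup.mem_subgroupOf, mem_To]

theorem ht_un (hs : ∀ t : K, σ (σ t) = t ^ 3) (k : Kˣ) {p : Matrix.SpecialLinearGroup (Fin 7) K} (hp : p ∈ Un σ) : ht σ k * p * (ht σ k)⁻¹ ∈ Un σ := by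
  induction hp using Subgroup.closure_induction with
  | mem x hx =>
    rcases hx with (⟨t, rfl⟩ | ⟨t, rfl⟩) | ⟨t, rfl⟩
    · rw [ht_al hs]
      exact al_mem _
    · rw [ht_be hs]
      exact be_mem _
    · rw [ht_ga]
      exact ga_mem _
  | one =>
    rw [mul_one, mul_inv_cancel]
    exact (Un σ).one_mem
  | mul x y _ _ hx hy =>
    have : ht σ k * (x * y) * (ht σ k)⁻¹ = (ht σ k * x * (ht σ k)⁻¹) * (ht σ k * y * (ht σ k)⁻¹) := by group
    rw [this]
    exact (Un σ).mul_mem hx hy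
  | inv x _ hx =>
    have : ht σ k * x⁻¹ * (ht σ k)⁻¹ = (ht σ k * x * (ht σ k)⁻¹)⁻¹ := by group
    rw [this]
    exact (Un σ).inv_mem hx

theorem ga_inj {s t : K} (h : ga σ s = ga σ t) : s = t := by
  have := congrArg (fun g => ac g ![0, 0, 0, 0, 0, 1, 0] 2) h
  simp only [ac_ga] at this
  simpa [fc] using this

/-- the Ree group is a group of rank one -/
theorem r2 [Finite K] (h3 : (3 : K) = 0) (hs : ∀ t : K, σ (σ t) = t ^ 3) : R2 (UR σ) (TR σ) (nR σ) where
  nn := Subtype.ext nn_nn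
  nt t ht := by
    obtain ⟨k, hk⟩ := mem_TR.1 ht
    apply Subtype.ext
    show nn K * (t : Matrix.SpecialLinearGroup (Fin 7) K) * nn K = (t : Matrix.SpecialLinearGroup (Fin 7) K)⁻¹
    rw [hk, nn_ht]
  tp t ht p hp := by
    obtain ⟨k, hk⟩ := mem_TR.1 ht
    rw [mem_UR] at hp ⊢
    show (t : Matrix.SpecialLinearGroup (Fin 7) K) * p * (t : Matrix.SpecialLinearGroup (Fin 7) K)⁻¹ ∈ Un σ
    rw [hk]
    exact ht_un hs k hp
  bru m := by
    rcases (Re_pr h3 hs m.2).bru h3 hs with ⟨p, hp, k, e⟩ | ⟨p, hp, p', hp', k, e⟩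
    · left
      exact ⟨⟨p, Un_le hp⟩, mem_UR.2 hp, ⟨ht σ k, To_le (mem_To.2 ⟨k, rfl⟩)⟩, mem_TR.2 ⟨k, rfl⟩, Subtype.ext e⟩
    · right
      exact ⟨⟨p, Un_le hp⟩, mem_UR.2 hp, ⟨p', Un_le hp'⟩, mem_UR.2 hp', ⟨ht σ k, To_le (mem_To.2 ⟨k, rfl⟩)⟩, mem_TR.2 ⟨k, rfl⟩, Subtype.ext e⟩
  r0 p hp h1 := by
    have h2 : (p : Matrix.SpecialLinearGroup (Fin 7) K) ≠ 1 := by
      intro h
      exact h1 (Subtype.ext h)
    obtain ⟨q, hq, q', hq', k, e⟩ := r0 h3 hs (mem_UR.1 hp) h2
    exact ⟨⟨q, Un_le hq⟩, mem_UR.2 hq, ⟨q', Un_le hq'⟩, mem_UR.2 hq', ⟨ht σ k, To_le (mem_To.2 ⟨k, rfl⟩)⟩, mem_TR.2 ⟨k, rfl⟩, Subtype.ext e⟩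
  val t ht := by
    obtain ⟨k, hk⟩ := mem_TR.1 ht
    obtain ⟨p, hp, q, hq, q', hq', e⟩ := val h3 hs k
    refine ⟨⟨p, Un_le hp⟩, mem_UR.2 hp, ⟨q, Un_le hq⟩, mem_UR.2 hq, ⟨q', Un_le hq'⟩, mem_UR.2 hq', Subtype.ext ?_⟩
    show nn K * p * nn K = q * nn K * q' * (t : Matrix.SpecialLinearGroup (Fin 7) K)
    rw [hk, e]
  fix t ht h1 := by
    obtain ⟨k, hk⟩ := mem_TR.1 ht
    refine ⟨⟨ga σ 1, Un_le (ga_mem 1)⟩, mem_UR.2 (ga_mem 1), ?_⟩
    intro h2
    apply h1
    have h4 : (t : Matrix.SpecialLinearGroup (Fin 7) K) * ga σ 1 * (t : Matrix.SpecialLinearGroup (Fin 7) K)⁻¹ = ga σ 1 := congrArg Subtype.val h2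
    rw [hk, ht_ga] at h4
    have h5 := ga_inj h4
    rw [mul_one] at h5
    have h6 : k = 1 := Units.ext h5
    apply Subtype.ext
    rw [hk, h6, ht_one]
    rfl

/-- the fixed points of a torus element on the unipotent subgroup -/
theorem no_fix (h3 : (3 : K) = 0) (hs : ∀ t : K, σ (σ t) = t ^ 3) {k : Kˣ} (k1 : (k : K) ≠ 1) (k2 : (k : K) ≠ -1) {p : Matrix.SpecialLinearGroup (Fin 7) K} (hp : p ∈ Un σ)
    (h : ht σ k * p * (ht σ k)⁻¹ = p) : p = 1 := by
  have hk : (k : K) ≠ 0 := k.ne_zero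
  have hk' : σ (k : K) ≠ 0 := by simp
  have c1 : (k : K) ^ 2 ≠ σ k := by
    intro e
    apply k1
    have h1 : σ (k : K) ^ 2 = (k : K) ^ 3 := by rw [← hs, ← e, map_pow, e]
    have h2 : (k : K) ^ 3 * (k - 1) = 0 := by
      rw [← e] at h1
      linear_combination h1
    have := (mul_eq_zero.1 h2).resolve_left (pow_ne_zero 3 hk)
    linear_combination this
  have c2 : (k : K) ≠ σ k := by
    intro e
    have h1 : (k : K) = (k : K) ^ 3 := by
      rw [← hs, ← e, ← e]
    have h2 : (k : K) * ((k - 1) * (k + 1)) = 0 := by linear_combination -h1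
    rcases mul_eq_zero.1 ((mul_eq_zero.1 h2).resolve_left hk) with h | h
    · apply k1
      linear_combination h
    · apply k2
      linear_combination h
  set v := ac p ![0, 0, 0, 0, 0, 0, 1] with hv
  have hvk : fh (k : K) (σ k) v = (k : K)⁻¹ • v := by
    have e : ht σ k * p = p * ht σ k := by
      calc ht σ k * p = ht σ k * p * (ht σ k)⁻¹ * ht σ k := by group
        _ = p * ht σ k := by rw [h]
    have e1 := congrArg (fun g => ac g ![0, 0, 0, 0, 0, 0, 1]) e
    simp only [ac_mul] at e1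
    rw [← hv, ac_ht] at e1
    rw [e1]
    have e2 : ac (ht σ k) ![0, 0, 0, 0, 0, 0, 1] = (k : K)⁻¹ • ![0, 0, 0, 0, 0, 0, 1] := by
      rw [ac_ht]
      apply ext7 <;> simp [fh]
    rw [e2, ac_smul]
  have v6 : v 6 = 1 := by
    rw [hv, (Un_tri hp).2]
    simp
  have e3 := congrFun hvk 3
  have e4 := congrFun hvk 4
  have e5 := congrFun hvk 5
  simp only [fh, Matrix.cons_val, Pi.smul_apply, smul_eq_mul] at e3 e4 e5
  have v3 : v 3 = 0 := by
    have : ((k : K) - 1) * v 3 = 0 := by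
      have : (k : K) * v 3 = v 3 := by
        conv_rhs => rw [← one_mul (v 3), ← mul_inv_cancel₀ hk, mul_assoc, ← e3]
      linear_combination this
    exact (mul_eq_zero.1 this).resolve_left (sub_ne_zero.2 k1)
  have v4 : v 4 = 0 := by
    have : (σ k - (k : K)) * v 4 = 0 := by
      field_simp at e4
      linear_combination e4
    exact (mul_eq_zero.1 this).resolve_left (sub_ne_zero.2 c2.symm)
  have v5 : v 5 = 0 := by
    have : ((k : K) ^ 2 - σ k) * v 5 = 0 := by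
      field_simp at e5
      linear_combination e5
    exact (mul_eq_zero.1 this).resolve_left (sub_ne_zero.2 c1)
  have r := (Un_pr h3 hs hp).r _ _ rl_top
  rw [← hv] at r
  have e := r.top h3 v3 v4 v5 (by rw [v6]; exact one_ne_zero)
  rw [v6] at e
  exact un_eq_one h3 hs hp e

/-- Thompson's conjecture for the Ree groups `²G₂(q)`, `q > 3` -/
theorem ree [Finite K] (h3 : (3 : K) = 0) (hs : ∀ t : K, σ (σ t) = t ^ 3) (hc : 3 < Nat.card K) : ∃ w : Re σ, ∀ m : Re σ, ∃ x y : Re σ, IsConj w x ∧ IsConj w y ∧ x * y = m := by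
  classical
  have : Fintype K := Fintype.ofFinite K
  have hk : ∃ k : K, k ∉ ({0, 1, -1} : Finset K) := by
    by_contra hcon
    push Not at hcon
    have h1 : (Finset.univ : Finset K) ⊆ {0, 1, -1} := fun x _ => hcon x
    have h2 := Finset.card_le_card h1
    rw [Finset.card_univ, ← Nat.card_eq_fintype_card] at h2
    have h4 : ({0, 1, -1} : Finset K).card ≤ 3 := Finset.card_le_three
    omega
  obtain ⟨k, hk⟩ := hk
  simp only [Finset.mem_insert, Finset.mem_singleton, not_or] at hk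
  obtain ⟨k0, k1, k2⟩ := hk
  refine ⟨⟨ht σ (Units.mk0 k k0), To_le (mem_To.2 ⟨_, rfl⟩)⟩, ?_⟩
  apply (r2 h3 hs).square (Set.toFinite _) (mem_TR.2 ⟨Units.mk0 k k0, rfl⟩)
  intro p hp h
  have h4 : ht σ (Units.mk0 k k0) * (p : Matrix.SpecialLinearGroup (Fin 7) K) * (ht σ (Units.mk0 k k0))⁻¹ = p := congrArg Subtype.val h
  exact Subtype.ext (no_fix h3 hs (k := Units.mk0 k k0) k1 k2 (mem_UR.1 hp) h4)

end Pool.Agent.ThRee
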