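import Mathlib

/-! # Groups of rank one, without a condition on the torus (abstract) -/

namespace Pool.Agent.ThRee

/-- a group of rank one: `P` the unipotent subgroup, `T` the torus, `n` the element of the Weyl group (`n * n = 1`) -/
structure R2 {S : Type*} [Group S] (P T : Subgroup S) (n : S) : Prop where
  nn : n * n = 1
  nt : ∀ t ∈ T, n * t * n = t⁻¹
  tp : ∀ t ∈ T, ∀ p ∈ P, t * p * t⁻¹ ∈ P
  bru : ∀ m : S, (∃ p ∈ P, ∃ t ∈ T, m = p * t) ∨ ∃ p ∈ P, ∃ p' ∈ P, ∃ t ∈ T, m = p * n * p' * t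
  r0 : ∀ p ∈ P, p ≠ 1 → ∃ q ∈ P, ∃ q' ∈ P, ∃ t ∈ T, n * p * n = q * n * q' * t
  val : ∀ t ∈ T, ∃ p ∈ P, ∃ q ∈ P, ∃ q' ∈ P, n * p * n = q * n * q' * t
  fix : ∀ t ∈ T, t ≠ 1 → ∃ p ∈ P, t * p * t⁻¹ ≠ p

variable {S : Type*} [Group S] {P T : Subgroup S} {n : S}

theorem R2.tp' (h : R2 P T n) {t p : S} (ht : t ∈ T) (hp : p ∈ P) : t⁻¹ * p * t ∈ P := by
  have := h.tp t⁻¹ (T.inv_mem ht) p hp
  rwa [inv_inv] at this

theorem R2.inv (h : R2 P T n) : n⁻¹ = n := inv_eq_of_mul_eq_one_left h.nn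

theorem R2.cA (h : R2 P T n) {p p' t : S} (hp : p ∈ P) (hp' : p' ∈ P) (ht : t ∈ T) : ∃ y : S, ∃ t' ∈ T, ∃ q ∈ P, y * (p * n * p' * t) * y⁻¹ = n * t' * q := by
  refine ⟨p⁻¹, t, ht, t⁻¹ * p' * t * p, P.mul_mem (h.tp' ht hp') hp, ?_⟩
  group

theorem R2.cB (h : R2 P T n) {p t : S} (hp : p ∈ P) (h1 : p ≠ 1) (ht : t ∈ T) : ∃ y : S, ∃ t' ∈ T, ∃ q ∈ P, y * (p * t) * y⁻¹ = n * t' * q := by
  obtain ⟨q, hq, q', hq', s, hs, e⟩ := h.r0 p hp h1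
  obtain ⟨y, t', ht', r, hr, e2⟩ := h.cA hq hq' (T.mul_mem hs (T.inv_mem ht))
  refine ⟨y * n, t', ht', r, hr, ?_⟩
  rw [← e2, mul_inv_rev, h.inv]
  have e3 : n * (p * t) * n = q * n * q' * (s * t⁻¹) := by
    calc n * (p * t) * n = n * p * (n * n) * t * n := by rw [h.nn]; group
      _ = (n * p * n) * (n * t * n) := by group
      _ = q * n * q' * (s * t⁻¹) := by rw [e, h.nt t ht]; group
  rw [← e3]
  group

theorem R2.cC (h : R2 P T n) {m : S} (hm : m ≠ 1) : ∃ y : S, ∃ t ∈ T, ∃ q ∈ P, y * m * y⁻¹ = n * t * q := by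
  rcases h.bru m with ⟨p, hp, t, ht, rfl⟩ | ⟨p, hp, p', hp', t, ht, rfl⟩
  · by_cases h1 : p = 1
    · subst h1
      have ht1 : t ≠ 1 := by
        rintro rfl
        exact hm (mul_one _)
      obtain ⟨p0, hp0, e⟩ := h.fix t ht ht1
      have h2 : p0⁻¹ * (t * p0 * t⁻¹) ≠ 1 := by
        intro h3
        exact e (inv_mul_eq_one.1 h3).symm
      obtain ⟨y, t', ht', q, hq, e2⟩ := h.cB (P.mul_mem (P.inv_mem hp0) (h.tp t ht p0 hp0)) h2 ht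
      refine ⟨y * p0⁻¹, t', ht', q, hq, ?_⟩
      rw [← e2]
      group
    · obtain ⟨y, t', ht', q, hq, e2⟩ := h.cB hp h1 ht
      exact ⟨y, t', ht', q, hq, e2⟩
  · obtain ⟨y, t', ht', q, hq, e2⟩ := h.cA hp hp' ht
    exact ⟨y, t', ht', q, hq, e2⟩

/-- every element `≠ 1` is conjugate to an element of `n P n P` -/
theorem R2.move (h : R2 P T n) {m : S} (hm : m ≠ 1) : ∃ y : S, ∃ q ∈ P, ∃ p ∈ P, y * m * y⁻¹ = n * q * n * p := by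
  obtain ⟨y, t, ht, p, hp, e⟩ := h.cC hm
  obtain ⟨p0, hp0, q, hq, q', hq', e2⟩ := h.val t⁻¹ (T.inv_mem ht)
  refine ⟨p0 * y, q, hq, q' * p * p0⁻¹, P.mul_mem (P.mul_mem hq' hp) (P.inv_mem hp0), ?_⟩
  calc p0 * y * m * (p0 * y)⁻¹ = p0 * (y * m * y⁻¹) * p0⁻¹ := by group
    _ = (n * n) * p0 * (n * t * p) * p0⁻¹ := by rw [h.nn, e]; group
    _ = n * (n * p0 * n) * t * p * p0⁻¹ := by group
    _ = n * q * n * (q' * p * p0⁻¹) := by rw [e2]; group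

theorem cj {W : Subgroup S} (hW : (W : Set S).Finite) {b : S} (hb : ∀ v ∈ W, b * v * b⁻¹ ∈ W) (h : ∀ v ∈ W, b * v * b⁻¹ = v → v = 1) {v : S} (hv : v ∈ W) :
    ∃ y ∈ W, v * b = y * b * y⁻¹ := by
  have : Finite W := hW.to_subtype
  have hinj : Function.Injective (fun y : W => y⁻¹ * (⟨b * y * b⁻¹, hb y y.2⟩ : W)) := by
    intro y z hyz
    have e : (y : S)⁻¹ * (b * y * b⁻¹) = (z : S)⁻¹ * (b * z * b⁻¹) := congrArg Subtype.val hyz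
    have e2 : b * ((z : S) * (y : S)⁻¹) * b⁻¹ = (z : S) * (y : S)⁻¹ := by
      have e3 : b * ((z : S) * (y : S)⁻¹) * b⁻¹ = (z : S) * ((z : S)⁻¹ * (b * z * b⁻¹)) * (b * y * b⁻¹)⁻¹ := by group
      rw [e3, ← e]
      group
    have e4 := h _ (W.mul_mem z.2 (W.inv_mem y.2)) e2
    exact Subtype.ext (mul_inv_eq_one.mp e4).symm
  obtain ⟨y, hy⟩ := (Finite.injective_iff_surjective.mp hinj) ⟨v, hv⟩
  have e : (y : S)⁻¹ * (b * y * b⁻¹) = v := congrArg Subtype.val hy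
  refine ⟨(y : S)⁻¹, W.inv_mem y.2, ?_⟩
  rw [← e]
  group

/-- if a torus element has no fixed point `≠ 1` in the finite group `P`, the square of its class is everything -/
theorem R2.square (h : R2 P T n) (hf : (P : Set S).Finite) {t₀ : S} (ht : t₀ ∈ T) (h1 : ∀ p ∈ P, t₀ * p * t₀⁻¹ = p → p = 1) :
    ∀ m : S, ∃ x y : S, IsConj t₀ x ∧ IsConj t₀ y ∧ x * y = m := by
  intro m
  have hi : IsConj t₀ t₀⁻¹ := isConj_iff.2 ⟨n, by rw [h.inv]; exact h.nt t₀ ht⟩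
  by_cases hm : m = 1
  · exact ⟨t₀, t₀⁻¹, IsConj.refl _, hi, by rw [hm, mul_inv_cancel]⟩
  · obtain ⟨y, q, hq, p, hp, e⟩ := h.move hm
    have h2 : ∀ v ∈ P, t₀⁻¹ * v * t₀⁻¹⁻¹ = v → v = 1 := by
      intro v hv e3
      apply h1 v hv
      calc t₀ * v * t₀⁻¹ = t₀ * (t₀⁻¹ * v * t₀⁻¹⁻¹) * t₀⁻¹ := by rw [e3]
        _ = v := by group
    have h3 : ∀ v ∈ P, t₀⁻¹ * v * t₀⁻¹⁻¹ ∈ P := fun v hv => h.tp t₀⁻¹ (T.inv_mem ht) v hv
    obtain ⟨a, -, ea⟩ := cj hf h3 h2 hq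
    obtain ⟨b, -, eb⟩ := cj hf h3 h2 (v := t₀⁻¹ * p * t₀) (h.tp' ht hp)
    have k1 : IsConj t₀ (n * q * n * t₀) := by
      have e1 : n * q * n * t₀ = (n * a) * t₀⁻¹ * (n * a)⁻¹ := by
        have e4 : t₀ = n * t₀⁻¹ * n := by
          have := h.nt t₀⁻¹ (T.inv_mem ht)
          rw [this, inv_inv]
        calc n * q * n * t₀ = n * q * n * (n * t₀⁻¹ * n) := by rw [← e4]
          _ = n * q * (n * n) * t₀⁻¹ * n := by group
          _ = n * (q * t₀⁻¹) * n := by rw [h.nn]; group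
          _ = n * (a * t₀⁻¹ * a⁻¹) * n := by rw [ea]
          _ = (n * a) * t₀⁻¹ * (n * a)⁻¹ := by rw [mul_inv_rev, h.inv]; group
      rw [e1]
      exact hi.trans (isConj_iff.2 ⟨n * a, rfl⟩)
    have k2 : IsConj t₀ (t₀⁻¹ * p) := by
      have e1 : t₀⁻¹ * p = b * t₀⁻¹ * b⁻¹ := by
        rw [← eb]
        group
      rw [e1]
      exact hi.trans (isConj_iff.2 ⟨b, rfl⟩)
    refine ⟨y⁻¹ * (n * q * n * t₀) * y, y⁻¹ * (t₀⁻¹ * p) * y, ?_, ?_, ?_⟩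
    · exact k1.trans (isConj_iff.2 ⟨y⁻¹, by rw [inv_inv]⟩)
    · exact k2.trans (isConj_iff.2 ⟨y⁻¹, by rw [inv_inv]⟩)
    · have e5 : y⁻¹ * (n * q * n * t₀) * y * (y⁻¹ * (t₀⁻¹ * p) * y) = y⁻¹ * (n * q * n * p) * y := by group
      rw [e5, ← e]
      group

end Pool.Agent.ThRee
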