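import Pool.Agent.ThRee.Vec

/-! # The Ree groups `²G₂(q)`: the ovoid -/

namespace Pool.Agent.ThRee

open Matrix

variable {K : Type*} [Field K] {σ : K →+* K}

variable (σ) in
/-- `p` is a vector of a point of the ovoid, `q` a second vector of its line -/
structure Rl (p q : Fin 7 → K) : Prop where
  b1 : bl p p = 0
  b2 : bl p q = 0
  c : cr p q = 0
  l : lg p q = fun i => σ (p i)

theorem two_ne (h3 : (3 : K) = 0) : (2 : K) ≠ 0 := by
  intro h
  have h1 : (1 : K) = 3 - 2 := by norm_num
  rw [h3, h, sub_zero] at h1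
  exact one_ne_zero h1

theorem sz (h : ∀ t : K, σ (σ t) = t ^ 3) {t : K} (ht : σ t = 0) : t = 0 := (map_eq_zero σ).1 ht

/-- a point of the ovoid whose coordinates 3, 4, 5 are zero and whose coordinate 6 is not zero -/
theorem Rl.top (h3 : (3 : K) = 0) {p q : Fin 7 → K} (h : Rl σ p q) (h4 : p 3 = 0) (h5 : p 4 = 0) (h6 : p 5 = 0) (h7 : p 6 ≠ 0) : p = ![0, 0, 0, 0, 0, 0, p 6] := by
  have b1 := h.b1
  have l1 := congrFun h.l 1
  have l4 := congrFun h.l 4
  have l6 := congrFun h.l 6
  simp only [bl, lg, Matrix.cons_val, h4, h5, h6, map_zero] at b1 l1 l4 l6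
  have q5 : q 5 ≠ 0 := by
    intro h0
    apply h7
    apply (map_eq_zero σ).1
    rw [← l6, h0]
    ring
  have p2 : p 2 = 0 := by
    have : p 2 * q 5 = 0 := by linear_combination l4
    exact (mul_eq_zero.1 this).resolve_right q5
  have p0 : p 0 = 0 := by
    have : 2 * (p 0 * p 6) = 0 := by linear_combination b1
    exact (mul_eq_zero.1 ((mul_eq_zero.1 this).resolve_left (two_ne h3))).resolve_right h7
  have p1 : p 1 = 0 := by
    apply (map_eq_zero σ).1
    rw [← l1, p0, p2]
    ring
  apply ext7 <;> simp only [Matrix.cons_val] <;> assumption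

/-- a point of the ovoid in the hyperplane `p 6 = 0` -/
theorem Rl.bot (h3 : (3 : K) = 0) {p q : Fin 7 → K} (h : Rl σ p q) (p6 : p 6 = 0) : p = ![p 0, 0, 0, 0, 0, 0, 0] := by
  have b1 := h.b1
  have l1 := congrFun h.l 1
  have l2 := congrFun h.l 2
  have l3 := congrFun h.l 3
  have l4 := congrFun h.l 4
  have l5 := congrFun h.l 5
  have l6 := congrFun h.l 6
  have c0 := congrFun h.c 0
  have c1 := congrFun h.c 1
  have c6 := congrFun h.c 6
  simp only [bl, lg, cr, Matrix.cons_val, Pi.zero_apply, p6, map_zero] at b1 l1 l2 l3 l4 l5 l6 c0 c1 c6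
  have p5 : p 5 = 0 := by
    by_contra h0
    have q6 : q 6 = 0 := by
      have : p 5 * q 6 = 0 := by linear_combination -l6
      exact (mul_eq_zero.1 this).resolve_left h0
    apply h0
    apply (map_eq_zero σ).1
    rw [← l5, q6]
    ring
  simp only [p5, map_zero] at b1 l1 l2 l3 l4 l5 l6 c0 c1 c6
  have p4 : p 4 = 0 := by
    by_contra h0
    have q6 : q 6 = 0 := by
      have : p 4 * q 6 = 0 := by linear_combination -l5
      exact (mul_eq_zero.1 this).resolve_left h0
    have q5 : q 5 = 0 := by
      have : p 4 * q 5 = 0 := by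
        rw [q6] at c6
        linear_combination c6
      exact (mul_eq_zero.1 this).resolve_left h0
    apply h0
    apply (map_eq_zero σ).1
    rw [← l4, q5]
    ring
  simp only [p4, map_zero] at b1 l1 l2 l3 l4 l5 l6 c0 c1 c6
  have p3 : p 3 = 0 := by
    have : 2 * (p 3 * p 3) = 0 := by linear_combination b1
    exact mul_self_eq_zero.1 ((mul_eq_zero.1 this).resolve_left (two_ne h3))
  simp only [p3, map_zero] at b1 l1 l2 l3 l4 l5 l6 c0 c1 c6
  have p2 : p 2 = 0 := by
    by_contra h0
    have q5 : q 5 = 0 := by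
      have : p 2 * q 5 = 0 := by linear_combination l4
      exact (mul_eq_zero.1 this).resolve_left h0
    have q4 : q 4 = 0 := by
      have : p 2 * q 4 = 0 := by
        rw [q5] at l3
        linear_combination l3
      exact (mul_eq_zero.1 this).resolve_left h0
    apply h0
    apply (map_eq_zero σ).1
    rw [← l2, q4]
    ring
  simp only [p2, map_zero] at b1 l1 l2 l3 l4 l5 l6 c0 c1 c6
  have p1 : p 1 = 0 := by
    by_contra h0
    have q4 : q 4 = 0 := by
      have : p 1 * q 4 = 0 := by linear_combination l2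
      exact (mul_eq_zero.1 this).resolve_left h0
    have q3 : q 3 = 0 := by
      have : p 1 * q 3 = 0 := by
        rw [q4] at c1
        linear_combination -c1
      exact (mul_eq_zero.1 this).resolve_left h0
    have q2 : q 2 = 0 := by
      have : p 1 * q 2 = 0 := by
        rw [q3] at c0
        linear_combination c0
      exact (mul_eq_zero.1 this).resolve_left h0
    apply h0
    apply (map_eq_zero σ).1
    rw [← l1, q2]
    ring
  apply ext7 <;> simp only [Matrix.cons_val] <;> assumption

end Pool.Agent.ThRee
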