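import Pool.Agent.ThRee.Geo

/-! # The Ree groups `²G₂(q)`: the matrices -/

namespace Pool.Agent.ThRee

open Matrix

variable {K : Type*} [Field K] {σ : K →+* K}

set_option linter.unusedSimpArgs false
set_option linter.unusedSectionVars false

variable (σ) in
/-- the matrix `α(t)` -/
def al (t : K) : SpecialLinearGroup (Fin 7) K :=
  ⟨!![1, t, 0, 0, -t ^ 3 * σ t, -t ^ 3 * σ t ^ 2, t ^ 4 * σ t ^ 2;
    0, 1, σ t, t * σ t, -t ^ 2 * σ t, 0, -t ^ 3 * σ t ^ 2;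
    0, 0, 1, t, -t ^ 2, 0, t ^ 3 * σ t;
    0, 0, 0, 1, t, 0, 0;
    0, 0, 0, 0, 1, -σ t, t * σ t;
    0, 0, 0, 0, 0, 1, -t;
    0, 0, 0, 0, 0, 0, 1], by
    rw [Matrix.det_of_isUpperTriangular]
    · simp [Fin.prod_univ_succ]
    · intro i j hij
      fin_cases i <;> fin_cases j <;> first | rfl | (exfalso; revert hij; decide)⟩

variable (σ) in
/-- the matrix `β(t)` -/
def be (t : K) : SpecialLinearGroup (Fin 7) K :=
  ⟨!![1, 0, -t, 0, -σ t, 0, -t * σ t;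
    0, 1, 0, t, 0, -t ^ 2, 0;
    0, 0, 1, 0, 0, 0, σ t;
    0, 0, 0, 1, 0, t, 0;
    0, 0, 0, 0, 1, 0, t;
    0, 0, 0, 0, 0, 1, 0;
    0, 0, 0, 0, 0, 0, 1], by
    rw [Matrix.det_of_isUpperTriangular]
    · simp [Fin.prod_univ_succ]
    · intro i j hij
      fin_cases i <;> fin_cases j <;> first | rfl | (exfalso; revert hij; decide)⟩

variable (σ) in
/-- the matrix `γ(t)` -/
def ga (t : K) : SpecialLinearGroup (Fin 7) K :=
  ⟨!![1, 0, 0, -t, 0, -σ t, -t ^ 2;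
    0, 1, 0, 0, -t, 0, σ t;
    0, 0, 1, 0, 0, t, 0;
    0, 0, 0, 1, 0, 0, -t;
    0, 0, 0, 0, 1, 0, 0;
    0, 0, 0, 0, 0, 1, 0;
    0, 0, 0, 0, 0, 0, 1], by
    rw [Matrix.det_of_isUpperTriangular]
    · simp [Fin.prod_univ_succ]
    · intro i j hij
      fin_cases i <;> fin_cases j <;> first | rfl | (exfalso; revert hij; decide)⟩

theorem det_nn : (!![0, 0, 0, 0, 0, 0, -1;
    0, 0, 0, 0, 0, -1, 0;
    0, 0, 0, 0, -1, 0, 0;
    0, 0, 0, -1, 0, 0, 0;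
    0, 0, -1, 0, 0, 0, 0;
    0, -1, 0, 0, 0, 0, 0;
    -1, 0, 0, 0, 0, 0, 0] : Matrix (Fin 7) (Fin 7) K).det = 1 := by
  have h1 : (!![0, 0, 0, 0, 0, 0, -1;
    0, 0, 0, 0, 0, -1, 0;
    0, 0, 0, 0, -1, 0, 0;
    0, 0, 0, -1, 0, 0, 0;
    0, 0, -1, 0, 0, 0, 0;
    0, -1, 0, 0, 0, 0, 0;
    -1, 0, 0, 0, 0, 0, 0] : Matrix (Fin 7) (Fin 7) K) = (-1 : Matrix (Fin 7) (Fin 7) K).submatrix (Fin.revPerm : Equiv.Perm (Fin 7)) id := by
    ext i j
    fin_cases i <;> fin_cases j <;> simp [Fin.rev]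
  have h2 : Equiv.Perm.sign (Fin.revPerm : Equiv.Perm (Fin 7)) = -1 := by decide
  rw [h1, Matrix.det_permute, h2, Matrix.det_neg, Matrix.det_one]
  norm_num [pow_succ]

variable (K) in
/-- the matrix `n` -/
def nn : SpecialLinearGroup (Fin 7) K :=
  ⟨!![0, 0, 0, 0, 0, 0, -1;
    0, 0, 0, 0, 0, -1, 0;
    0, 0, 0, 0, -1, 0, 0;
    0, 0, 0, -1, 0, 0, 0;
    0, 0, -1, 0, 0, 0, 0;
    0, -1, 0, 0, 0, 0, 0;
    -1, 0, 0, 0, 0, 0, 0], det_nn⟩

variable (σ) in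
/-- the diagonal matrix `h(κ)` -/
def ht (k : Kˣ) : SpecialLinearGroup (Fin 7) K :=
  ⟨Matrix.diagonal ![(k : K), σ k / k, k ^ 2 / σ k, 1, σ k / k ^ 2, k / σ k, (k : K)⁻¹], by
    have h1 : (k : K) ≠ 0 := k.ne_zero
    have h2 : σ (k : K) ≠ 0 := by simpa using h1
    rw [Matrix.det_diagonal]
    simp [Fin.prod_univ_succ]
    field_simp⟩

/-- the action on vectors -/
def ac (g : SpecialLinearGroup (Fin 7) K) (v : Fin 7 → K) : Fin 7 → K := (g : Matrix (Fin 7) (Fin 7) K) *ᵥ v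

theorem ac_al (t : K) (p : Fin 7 → K) : ac (al σ t) p = fa t (σ t) p := by
  apply ext7 <;> simp [ac, al, fa, Matrix.mulVec, dotProduct, Fin.sum_univ_succ] <;> ring

theorem ac_be (t : K) (p : Fin 7 → K) : ac (be σ t) p = fb t (σ t) p := by
  apply ext7 <;> simp [ac, be, fb, Matrix.mulVec, dotProduct, Fin.sum_univ_succ] <;> ring

theorem ac_ga (t : K) (p : Fin 7 → K) : ac (ga σ t) p = fc t (σ t) p := by
  apply ext7 <;> simp [ac, ga, fc, Matrix.mulVec, dotProduct, Fin.sum_univ_succ] <;> ring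

theorem ac_nn (p : Fin 7 → K) : ac (nn K) p = fn p := by
  apply ext7 <;> simp [ac, nn, fn, Matrix.mulVec, dotProduct, Fin.sum_univ_succ]

theorem ac_ht (k : Kˣ) (p : Fin 7 → K) : ac (ht σ k) p = fh (k : K) (σ k) p := by
  apply ext7 <;> simp [ac, ht, fh, Matrix.mulVec_diagonal] <;> ring

theorem ac_one (p : Fin 7 → K) : ac 1 p = p := by
  simp [ac]

theorem ac_mul (g h : SpecialLinearGroup (Fin 7) K) (p : Fin 7 → K) : ac (g * h) p = ac g (ac h p) := by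
  simp [ac, Matrix.mulVec_mulVec]

theorem ac_neg (g : SpecialLinearGroup (Fin 7) K) (p : Fin 7 → K) : ac g (-p) = -ac g p := by
  simp [ac, Matrix.mulVec_neg]

theorem ac_smul (g : SpecialLinearGroup (Fin 7) K) (c : K) (p : Fin 7 → K) : ac g (c • p) = c • ac g p := by
  simp [ac, Matrix.mulVec_smul]

theorem ac_inv (g : SpecialLinearGroup (Fin 7) K) (p : Fin 7 → K) : ac g⁻¹ (ac g p) = p := by
  rw [← ac_mul, inv_mul_cancel, ac_one]

theorem ac_inv' (g : SpecialLinearGroup (Fin 7) K) (p : Fin 7 → K) : ac g (ac g⁻¹ p) = p := by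
  rw [← ac_mul, mul_inv_cancel, ac_one]

theorem ac_ext {g h : SpecialLinearGroup (Fin 7) K} (e0 : ac g ![1, 0, 0, 0, 0, 0, 0] = ac h ![1, 0, 0, 0, 0, 0, 0]) (e1 : ac g ![0, 1, 0, 0, 0, 0, 0] = ac h ![0, 1, 0, 0, 0, 0, 0])
    (e2 : ac g ![0, 0, 1, 0, 0, 0, 0] = ac h ![0, 0, 1, 0, 0, 0, 0]) (e3 : ac g ![0, 0, 0, 1, 0, 0, 0] = ac h ![0, 0, 0, 1, 0, 0, 0]) (e4 : ac g ![0, 0, 0, 0, 1, 0, 0] = ac h ![0, 0, 0, 0, 1, 0, 0])
    (e5 : ac g ![0, 0, 0, 0, 0, 1, 0] = ac h ![0, 0, 0, 0, 0, 1, 0]) (e6 : ac g ![0, 0, 0, 0, 0, 0, 1] = ac h ![0, 0, 0, 0, 0, 0, 1]) : g = h := by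
  apply Subtype.ext
  ext i j
  fin_cases j
  · have := congrFun e0 i
    simpa [ac, Matrix.mulVec, dotProduct, Fin.sum_univ_succ] using this
  · have := congrFun e1 i
    simpa [ac, Matrix.mulVec, dotProduct, Fin.sum_univ_succ] using this
  · have := congrFun e2 i
    simpa [ac, Matrix.mulVec, dotProduct, Fin.sum_univ_succ] using this
  · have := congrFun e3 i
    simpa [ac, Matrix.mulVec, dotProduct, Fin.sum_univ_succ] using this
  · have := congrFun e4 i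
    simpa [ac, Matrix.mulVec, dotProduct, Fin.sum_univ_succ] using this
  · have := congrFun e5 i
    simpa [ac, Matrix.mulVec, dotProduct, Fin.sum_univ_succ] using this
  · have := congrFun e6 i
    simpa [ac, Matrix.mulVec, dotProduct, Fin.sum_univ_succ] using this

theorem ac_ext' {g h : SpecialLinearGroup (Fin 7) K} (e : ∀ v, ac g v = ac h v) : g = h :=
  ac_ext (e _) (e _) (e _) (e _) (e _) (e _) (e _)


theorem nn_nn : nn K * nn K = 1 := by
  apply ac_ext'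
  intro v
  rw [ac_mul, ac_nn, ac_nn, ac_one]
  apply ext7 <;> simp [fn]

theorem ht_mul (k l : Kˣ) : ht σ (k * l) = ht σ k * ht σ l := by
  apply ac_ext'
  intro v
  have h1 : (k : K) ≠ 0 := k.ne_zero
  have h2 : σ (k : K) ≠ 0 := by simp
  have h3 : (l : K) ≠ 0 := l.ne_zero
  have h4 : σ (l : K) ≠ 0 := by simp
  rw [ac_mul, ac_ht, ac_ht, ac_ht]
  apply ext7 <;> simp only [fh, Matrix.cons_val, Units.val_mul, map_mul] <;> field_simp

theorem ht_one : ht σ (1 : Kˣ) = 1 := by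
  have := ht_mul (σ := σ) (1 : Kˣ) 1
  rw [mul_one] at this
  exact (left_eq_mul.1 this)

theorem ht_inv (k : Kˣ) : (ht σ k)⁻¹ = ht σ k⁻¹ := by
  rw [inv_eq_iff_mul_eq_one, ← ht_mul, mul_inv_cancel, ht_one]

theorem nn_ht (k : Kˣ) : nn K * ht σ k * nn K = (ht σ k)⁻¹ := by
  rw [ht_inv]
  apply ac_ext'
  intro v
  have h1 : (k : K) ≠ 0 := k.ne_zero
  have h2 : σ (k : K) ≠ 0 := by simp
  rw [ac_mul, ac_mul, ac_nn, ac_ht, ac_nn, ac_ht]
  apply ext7 <;> simp only [fh, fn, Matrix.cons_val, Units.val_inv_eq_inv_val, map_inv₀] <;> field_simp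

/-- the torus acts on `α(t)` -/
theorem ht_al (hs : ∀ t : K, σ (σ t) = t ^ 3) (k : Kˣ) (t : K) : ht σ k * al σ t * (ht σ k)⁻¹ = al σ (k ^ 2 / σ k * t) := by
  rw [ht_inv]
  apply ac_ext'
  intro v
  have h1 : (k : K) ≠ 0 := k.ne_zero
  have h2 : σ (k : K) ≠ 0 := by simp
  rw [ac_mul, ac_mul, ac_al, ac_ht, ac_ht, ac_al]
  apply ext7 <;> simp only [fh, fa, Matrix.cons_val, Units.val_inv_eq_inv_val, map_inv₀, map_mul, map_div₀, map_pow, hs] <;> field_simp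

theorem ht_be (hs : ∀ t : K, σ (σ t) = t ^ 3) (k : Kˣ) (t : K) : ht σ k * be σ t * (ht σ k)⁻¹ = be σ (σ k / k * t) := by
  rw [ht_inv]
  apply ac_ext'
  intro v
  have h1 : (k : K) ≠ 0 := k.ne_zero
  have h2 : σ (k : K) ≠ 0 := by simp
  rw [ac_mul, ac_mul, ac_be, ac_ht, ac_ht, ac_be]
  apply ext7 <;> simp only [fh, fb, Matrix.cons_val, Units.val_inv_eq_inv_val, map_inv₀, map_mul, map_div₀, map_pow, hs] <;> field_simp

theorem ht_ga (k : Kˣ) (t : K) : ht σ k * ga σ t * (ht σ k)⁻¹ = ga σ (k * t) := by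
  rw [ht_inv]
  apply ac_ext'
  intro v
  have h1 : (k : K) ≠ 0 := k.ne_zero
  have h2 : σ (k : K) ≠ 0 := by simp
  rw [ac_mul, ac_mul, ac_ga, ac_ht, ac_ht, ac_ga]
  apply ext7 <;> simp only [fh, fc, Matrix.cons_val, Units.val_inv_eq_inv_val, map_inv₀, map_mul, map_div₀, map_pow] <;> field_simp


theorem al_inv (h3 : (3 : K) = 0) (hs : ∀ t : K, σ (σ t) = t ^ 3) (t : K) : (al σ t)⁻¹ = al σ (-t) * (be σ (-(t * σ t)) * ga σ (t ^ 2 * σ t)) := by
  rw [inv_eq_iff_mul_eq_one]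
  apply ac_ext'
  intro p
  rw [ac_mul, ac_mul, ac_mul, ac_al, ac_al, ac_be, ac_ga, ac_one]
  apply ext7
  · simp only [fa, fb, fc, Matrix.cons_val, map_neg, map_mul, map_pow, hs]
    linear_combination (-t ^ 3 * σ t ^ 2 * p 5) * h3
  · simp only [fa, fb, fc, Matrix.cons_val, map_neg, map_mul, map_pow, hs]
    linear_combination (t ^ 3 * σ t ^ 2 * p 6 - t ^ 2 * σ t ^ 2 * p 5 - t ^ 2 * σ t * p 4) * h3
  · simp only [fa, fb, fc, Matrix.cons_val, map_neg, map_mul, map_pow, hs]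
    linear_combination (t ^ 3 * σ t * p 6 - t ^ 2 * p 4) * h3
  · simp only [fa, fb, fc, Matrix.cons_val, map_neg, map_mul, map_pow, hs]
    ring
  · simp only [fa, fb, fc, Matrix.cons_val, map_neg, map_mul, map_pow, hs]
    ring
  · simp only [fa, fb, fc, Matrix.cons_val, map_neg, map_mul, map_pow, hs]
    ring
  · simp only [fa, fb, fc, Matrix.cons_val, map_neg, map_mul, map_pow, hs]

theorem be_inv (h3 : (3 : K) = 0) (t : K) : (be σ t)⁻¹ = be σ (-t) := by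
  rw [inv_eq_iff_mul_eq_one]
  apply ac_ext'
  intro p
  rw [ac_mul, ac_be, ac_be, ac_one]
  apply ext7
  · simp only [fb, Matrix.cons_val, map_neg]
    ring
  · simp only [fb, Matrix.cons_val, map_neg]
    linear_combination (-t ^ 2 * p 5) * h3
  · simp only [fb, Matrix.cons_val, map_neg]
    ring
  · simp only [fb, Matrix.cons_val, map_neg]
    ring
  · simp only [fb, Matrix.cons_val, map_neg]
    ring
  · simp only [fb, Matrix.cons_val, map_neg]
  · simp only [fb, Matrix.cons_val, map_neg]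

theorem ga_inv (h3 : (3 : K) = 0) (t : K) : (ga σ t)⁻¹ = ga σ (-t) := by
  rw [inv_eq_iff_mul_eq_one]
  apply ac_ext'
  intro p
  rw [ac_mul, ac_ga, ac_ga, ac_one]
  apply ext7
  · simp only [fc, Matrix.cons_val, map_neg]
    linear_combination (-t ^ 2 * p 6) * h3
  · simp only [fc, Matrix.cons_val, map_neg]
    ring
  · simp only [fc, Matrix.cons_val, map_neg]
    ring
  · simp only [fc, Matrix.cons_val, map_neg]
    ring
  · simp only [fc, Matrix.cons_val, map_neg]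
  · simp only [fc, Matrix.cons_val, map_neg]
  · simp only [fc, Matrix.cons_val, map_neg]

end Pool.Agent.ThRee
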