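import Pool.Agent.ThRee.Mat

/-! # The Ree groups `²G₂(q)`: the matrices which preserve the ovoid -/

namespace Pool.Agent.ThRee

open Matrix

variable {K : Type*} [Field K] {σ : K →+* K}

set_option linter.unusedSimpArgs false
set_option linter.unusedSectionVars false

variable (σ) in
/-- `g` preserves the form, the cross product and the ovoid -/
structure Pr (g : SpecialLinearGroup (Fin 7) K) : Prop where
  b : ∀ p q, bl (ac g p) (ac g q) = bl p q
  c : ∀ p q, cr (ac g p) (ac g q) = ac g (cr p q)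
  r : ∀ p q, Rl σ p q → Rl σ (ac g p) (ac g q)
  i : ∀ p q, Rl σ p q → Rl σ (ac g⁻¹ p) (ac g⁻¹ q)

theorem Pr.one : Pr σ (1 : SpecialLinearGroup (Fin 7) K) where
  b p q := by simp only [ac_one]
  c p q := by simp only [ac_one]
  r p q h := by simpa only [ac_one] using h
  i p q h := by simpa only [inv_one, ac_one] using h

theorem Pr.mul {g h : SpecialLinearGroup (Fin 7) K} (hg : Pr σ g) (hh : Pr σ h) : Pr σ (g * h) where
  b p q := by rw [ac_mul, ac_mul, hg.b, hh.b]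
  c p q := by rw [ac_mul, ac_mul, hg.c, hh.c, ac_mul]
  r p q h1 := by
    rw [ac_mul, ac_mul]
    exact hg.r _ _ (hh.r _ _ h1)
  i p q h1 := by
    rw [_root_.mul_inv_rev, ac_mul, ac_mul]
    exact hh.i _ _ (hg.i _ _ h1)

theorem Pr.inv {g : SpecialLinearGroup (Fin 7) K} (hg : Pr σ g) : Pr σ g⁻¹ where
  b p q := by rw [← hg.b, ac_inv', ac_inv']
  c p q := by
    have h1 := hg.c (ac g⁻¹ p) (ac g⁻¹ q)
    rw [ac_inv', ac_inv'] at h1
    rw [h1, ac_inv]
  r p q h1 := hg.i p q h1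
  i p q h1 := by
    rw [inv_inv]
    exact hg.r p q h1

/-- forward invariance -/
def Fw (σ : K →+* K) (g : SpecialLinearGroup (Fin 7) K) : Prop := ∀ p q, Rl σ p q → Rl σ (ac g p) (ac g q)

theorem Fw.mul {g h : SpecialLinearGroup (Fin 7) K} (hg : Fw σ g) (hh : Fw σ h) : Fw σ (g * h) := by
  intro p q h1
  rw [ac_mul, ac_mul]
  exact hg _ _ (hh _ _ h1)

theorem fw_al (h3 : (3 : K) = 0) (hs : ∀ t : K, σ (σ t) = t ^ 3) (t : K) : Fw σ (al σ t) := by
  intro p q h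
  rw [ac_al, ac_al]
  refine ⟨?_, ?_, ?_, ?_⟩
  · rw [bl_fa h3, h.b1]
  · rw [bl_fa h3, h.b2]
  · rw [cr_fa h3, h.c]
    apply ext7 <;> simp [fa]
  · exact lg_fa h3 hs t h.c h.l

theorem fw_be (h3 : (3 : K) = 0) (hs : ∀ t : K, σ (σ t) = t ^ 3) (t : K) : Fw σ (be σ t) := by
  intro p q h
  rw [ac_be, ac_be]
  refine ⟨?_, ?_, ?_, ?_⟩
  · rw [bl_fb h3, h.b1]
  · rw [bl_fb h3, h.b2]
  · rw [cr_fb h3, h.c]
    apply ext7 <;> simp [fb]
  · exact lg_fb h3 hs t h.c h.l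

theorem fw_ga (h3 : (3 : K) = 0) (hs : ∀ t : K, σ (σ t) = t ^ 3) (t : K) : Fw σ (ga σ t) := by
  intro p q h
  rw [ac_ga, ac_ga]
  refine ⟨?_, ?_, ?_, ?_⟩
  · rw [bl_fc h3, h.b1]
  · rw [bl_fc h3, h.b2]
  · rw [cr_fc h3, h.c]
    apply ext7 <;> simp [fc]
  · exact lg_fc h3 hs t h.c h.l

theorem fw_nn : Fw σ (nn K) := by
  intro p q h
  rw [ac_nn, ac_nn]
  refine ⟨?_, ?_, ?_, ?_⟩
  · rw [bl_fn, h.b1]
  · rw [bl_fn, h.b2]
  · rw [cr_fn, h.c]
    apply ext7 <;> simp [fn]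
  · exact lg_fn h.l

theorem fw_ht (hs : ∀ t : K, σ (σ t) = t ^ 3) (k : Kˣ) : Fw σ (ht σ k) := by
  intro p q h
  have h1 : (k : K) ≠ 0 := k.ne_zero
  have h2 : σ (k : K) ≠ 0 := by simp
  rw [ac_ht, ac_ht]
  refine ⟨?_, ?_, ?_, ?_⟩
  · rw [bl_fh h1 h2, h.b1]
  · rw [bl_fh h1 h2, h.b2]
  · rw [cr_fh h1 h2, h.c]
    apply ext7 <;> simp [fh]
  · exact lg_fh hs h1 h.l

theorem pr_al (h3 : (3 : K) = 0) (hs : ∀ t : K, σ (σ t) = t ^ 3) (t : K) : Pr σ (al σ t) where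
  b p q := by rw [ac_al, ac_al, bl_fa h3]
  c p q := by rw [ac_al, ac_al, ac_al, cr_fa h3]
  r := fw_al h3 hs t
  i := by
    rw [al_inv h3 hs]
    exact (fw_al h3 hs _).mul ((fw_be h3 hs _).mul (fw_ga h3 hs _))

theorem pr_be (h3 : (3 : K) = 0) (hs : ∀ t : K, σ (σ t) = t ^ 3) (t : K) : Pr σ (be σ t) where
  b p q := by rw [ac_be, ac_be, bl_fb h3]
  c p q := by rw [ac_be, ac_be, ac_be, cr_fb h3]
  r := fw_be h3 hs t
  i := by
    rw [be_inv h3]
    exact fw_be h3 hs _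

theorem pr_ga (h3 : (3 : K) = 0) (hs : ∀ t : K, σ (σ t) = t ^ 3) (t : K) : Pr σ (ga σ t) where
  b p q := by rw [ac_ga, ac_ga, bl_fc h3]
  c p q := by rw [ac_ga, ac_ga, ac_ga, cr_fc h3]
  r := fw_ga h3 hs t
  i := by
    rw [ga_inv h3]
    exact fw_ga h3 hs _

theorem pr_nn : Pr σ (nn K) where
  b p q := by rw [ac_nn, ac_nn, bl_fn]
  c p q := by rw [ac_nn, ac_nn, ac_nn, cr_fn]
  r := fw_nn
  i := by
    rw [inv_eq_of_mul_eq_one_left nn_nn]
    exact fw_nn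

theorem pr_ht (hs : ∀ t : K, σ (σ t) = t ^ 3) (k : Kˣ) : Pr σ (ht σ k) where
  b p q := by rw [ac_ht, ac_ht, bl_fh k.ne_zero (by simp)]
  c p q := by rw [ac_ht, ac_ht, ac_ht, cr_fh k.ne_zero (by simp)]
  r := fw_ht hs k
  i := by
    rw [ht_inv]
    exact fw_ht hs _

variable (σ) in
/-- the unipotent subgroup -/
def Un : Subgroup (SpecialLinearGroup (Fin 7) K) := Subgroup.closure ({g | ∃ t, g = al σ t} ∪ {g | ∃ t, g = be σ t} ∪ {g | ∃ t, g = ga σ t})

variable (σ) in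
/-- the torus -/
def To : Subgroup (SpecialLinearGroup (Fin 7) K) := (MonoidHom.mk' (ht σ) ht_mul).range

variable (σ) in
/-- the Ree group `²G₂(q)` -/
def Re : Subgroup (SpecialLinearGroup (Fin 7) K) :=
  Subgroup.closure ({g | ∃ t, g = al σ t} ∪ {g | ∃ t, g = be σ t} ∪ {g | ∃ t, g = ga σ t} ∪ {g | ∃ k : Kˣ, g = ht σ k} ∪ {nn K})

theorem mem_To {g : SpecialLinearGroup (Fin 7) K} : g ∈ To σ ↔ ∃ k : Kˣ, g = ht σ k := by
  constructor
  · rintro ⟨k, rfl⟩
    exact ⟨k, rfl⟩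
  · rintro ⟨k, rfl⟩
    exact ⟨k, rfl⟩

theorem al_mem (t : K) : al σ t ∈ Un σ := Subgroup.subset_closure (Or.inl (Or.inl ⟨t, rfl⟩))

theorem be_mem (t : K) : be σ t ∈ Un σ := Subgroup.subset_closure (Or.inl (Or.inr ⟨t, rfl⟩))

theorem ga_mem (t : K) : ga σ t ∈ Un σ := Subgroup.subset_closure (Or.inr ⟨t, rfl⟩)

theorem Un_le : Un σ ≤ Re σ := by
  apply Subgroup.closure_mono
  intro g hg
  exact Or.inl (Or.inl hg)

theorem To_le : To σ ≤ Re σ := by
  intro g hg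
  exact Subgroup.subset_closure (Or.inl (Or.inr (mem_To.1 hg)))

theorem nn_mem : nn K ∈ Re σ := Subgroup.subset_closure (Or.inr rfl)

theorem Un_pr (h3 : (3 : K) = 0) (hs : ∀ t : K, σ (σ t) = t ^ 3) {g : SpecialLinearGroup (Fin 7) K} (hg : g ∈ Un σ) : Pr σ g := by
  induction hg using Subgroup.closure_induction with
  | mem x hx =>
    rcases hx with (⟨t, rfl⟩ | ⟨t, rfl⟩) | ⟨t, rfl⟩
    · exact pr_al h3 hs t
    · exact pr_be h3 hs t
    · exact pr_ga h3 hs t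
  | one => exact Pr.one
  | mul x y _ _ hx hy => exact hx.mul hy
  | inv x _ hx => exact hx.inv

theorem Re_pr (h3 : (3 : K) = 0) (hs : ∀ t : K, σ (σ t) = t ^ 3) {g : SpecialLinearGroup (Fin 7) K} (hg : g ∈ Re σ) : Pr σ g := by
  induction hg using Subgroup.closure_induction with
  | mem x hx =>
    rcases hx with (((⟨t, rfl⟩ | ⟨t, rfl⟩) | ⟨t, rfl⟩) | ⟨k, rfl⟩) | hx
    · exact pr_al h3 hs t
    · exact pr_be h3 hs t
    · exact pr_ga h3 hs t
    · exact pr_ht hs k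
    · rw [Set.mem_singleton_iff] at hx
      rw [hx]
      exact pr_nn
  | one => exact Pr.one
  | mul x y _ _ hx hy => exact hx.mul hy
  | inv x _ hx => exact hx.inv

/-- the unipotent elements are unitriangular -/
theorem Un_tri {g : SpecialLinearGroup (Fin 7) K} (hg : g ∈ Un σ) : ac g ![1, 0, 0, 0, 0, 0, 0] = ![1, 0, 0, 0, 0, 0, 0] ∧ ∀ v, ac g v 6 = v 6 := by
  induction hg using Subgroup.closure_induction with
  | mem x hx =>
    rcases hx with (⟨t, rfl⟩ | ⟨t, rfl⟩) | ⟨t, rfl⟩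
    · constructor
      · rw [ac_al]
        apply ext7 <;> simp [fa]
      · intro v
        rw [ac_al]
        simp [fa]
    · constructor
      · rw [ac_be]
        apply ext7 <;> simp [fb]
      · intro v
        rw [ac_be]
        simp [fb]
    · constructor
      · rw [ac_ga]
        apply ext7 <;> simp [fc]
      · intro v
        rw [ac_ga]
        simp [fc]
  | one => exact ⟨ac_one _, fun v => by rw [ac_one]⟩
  | mul x y _ _ hx hy =>
    constructor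
    · rw [ac_mul, hy.1, hx.1]
    · intro v
      rw [ac_mul, hx.2, hy.2]
  | inv x _ hx =>
    constructor
    · conv_lhs => rw [← hx.1, ac_inv]
    · intro v
      rw [← hx.2 (ac x⁻¹ v), ac_inv']

/-- a vector outside of the hyperplane `v 6 = 0` can be moved by the unipotent subgroup -/
theorem to_top {v : Fin 7 → K} (h6 : v 6 ≠ 0) : ∃ p ∈ Un σ, ac p v 3 = 0 ∧ ac p v 4 = 0 ∧ ac p v 5 = 0 := by
  set a : K := v 5 / v 6 with ha
  set w := ac (al σ a) v with hw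
  have w6 : w 6 = v 6 := by rw [hw, ac_al]; simp [fa]
  have w5 : w 5 = 0 := by
    rw [hw, ac_al]
    simp only [fa, Matrix.cons_val, ha]
    field_simp
    ring
  set b : K := -(w 4) / v 6 with hb
  set x := ac (be σ b) w with hx
  have x6 : x 6 = v 6 := by rw [hx, ac_be, ← w6]; simp [fb]
  have x5 : x 5 = 0 := by rw [hx, ac_be, ← w5]; simp [fb]
  have x4 : x 4 = 0 := by
    rw [hx, ac_be]
    simp only [fb, Matrix.cons_val, w6, hb]
    field_simp
    ring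
  set c : K := x 3 / v 6 with hc
  refine ⟨ga σ c * (be σ b * al σ a), (Un σ).mul_mem (ga_mem c) ((Un σ).mul_mem (be_mem b) (al_mem a)), ?_, ?_, ?_⟩
  · rw [ac_mul, ac_mul, ← hw, ← hx, ac_ga]
    simp only [fc, Matrix.cons_val, x6, hc]
    field_simp
    ring
  · rw [ac_mul, ac_mul, ← hw, ← hx, ac_ga]
    simp only [fc, Matrix.cons_val, x4]
  · rw [ac_mul, ac_mul, ← hw, ← hx, ac_ga]
    simp only [fc, Matrix.cons_val, x5]

end Pool.Agent.ThRee
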