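import Mathlib

/-! # The Ree groups `²G₂(q)`: the maps on vectors and their invariants -/

namespace Pool.Agent.ThRee

open Matrix

variable {K : Type*} [Field K] {σ : K →+* K}

set_option linter.unusedSimpArgs false
set_option linter.unusedSectionVars false

theorem ext7 {u v : Fin 7 → K} (h0 : u 0 = v 0) (h1 : u 1 = v 1) (h2 : u 2 = v 2) (h3 : u 3 = v 3) (h4 : u 4 = v 4) (h5 : u 5 = v 5) (h6 : u 6 = v 6) : u = v := by
  funext i
  fin_cases i <;> assumption

/-- the map of `al` on vectors -/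
def fa (t T : K) (p : Fin 7 → K) : Fin 7 → K :=
  ![t ^ 4 * T ^ 2 * p 6 - t ^ 3 * T ^ 2 * p 5 - t ^ 3 * T * p 4 + t * p 1 + p 0, -t ^ 3 * T ^ 2 * p 6 - t ^ 2 * T * p 4 + t * T * p 3 + T * p 2 + p 1, t ^ 3 * T * p 6 - t ^ 2 * p 4 + t * p 3 + p 2, t * p 4 + p 3, t * T * p 6 - T * p 5 + p 4, -t * p 6 + p 5, p 6]


/-- the map of `be` on vectors -/
def fb (t T : K) (p : Fin 7 → K) : Fin 7 → K :=
  ![-t * T * p 6 - t * p 2 - T * p 4 + p 0, -t ^ 2 * p 5 + t * p 3 + p 1, T * p 6 + p 2, t * p 5 + p 3, t * p 6 + p 4, p 5, p 6]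


/-- the map of `ga` on vectors -/
def fc (t T : K) (p : Fin 7 → K) : Fin 7 → K :=
  ![-t ^ 2 * p 6 - t * p 3 - T * p 5 + p 0, -t * p 4 + T * p 6 + p 1, t * p 5 + p 2, -t * p 6 + p 3, p 4, p 5, p 6]


/-- the symmetric bilinear form -/
def bl (p q : Fin 7 → K) : K := p 0 * q 6 + p 6 * q 0 + p 1 * q 5 + p 5 * q 1 + p 2 * q 4 + p 4 * q 2 + 2 * (p 3 * q 3)

/-- the cross product -/
def cr (p q : Fin 7 → K) : Fin 7 → K :=
  ![(p 0 * q 3 - p 3 * q 0) + (p 1 * q 2 - p 2 * q 1), (p 0 * q 4 - p 4 * q 0) - (p 1 * q 3 - p 3 * q 1), -(p 2 * q 3 - p 3 * q 2) - (p 0 * q 5 - p 5 * q 0),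
    (p 0 * q 6 - p 6 * q 0) - (p 1 * q 5 - p 5 * q 1) - (p 2 * q 4 - p 4 * q 2), -(p 3 * q 4 - p 4 * q 3) - (p 1 * q 6 - p 6 * q 1),
    (p 2 * q 6 - p 6 * q 2) - (p 3 * q 5 - p 5 * q 3), (p 3 * q 6 - p 6 * q 3) + (p 4 * q 5 - p 5 * q 4)]

/-- the long coordinates of `p ∧ q` -/
def lg (p q : Fin 7 → K) : Fin 7 → K :=
  ![-(p 0 * q 1 - p 1 * q 0), -(p 0 * q 2 - p 2 * q 0), p 1 * q 4 - p 4 * q 1, (p 2 * q 4 - p 4 * q 2) - (p 1 * q 5 - p 5 * q 1), p 2 * q 5 - p 5 * q 2,
    -(p 4 * q 6 - p 6 * q 4), -(p 5 * q 6 - p 6 * q 5)]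

theorem bl_fa (h3 : (3 : K) = 0) (t T : K) (p q : Fin 7 → K) : bl (fa t T p) (fa t T q) = bl p q := by
  simp only [bl, fa, Matrix.cons_val]
  linear_combination (2 * t ^ 4 * T ^ 2 * p 6 * q 6 - t ^ 3 * T ^ 2 * p 5 * q 6 - t ^ 3 * T ^ 2 * p 6 * q 5 + t * p 3 * q 4 + t * p 4 * q 3) * h3

theorem cr_fa (h3 : (3 : K) = 0) (t T : K) (p q : Fin 7 → K) : cr (fa t T p) (fa t T q) = fa t T (cr p q) := by
  apply ext7
  · simp only [cr, fa, Matrix.cons_val]
    linear_combination (-t ^ 5 * T ^ 2 * p 4 * q 6 + t ^ 5 * T ^ 2 * p 6 * q 4 + t ^ 3 * T ^ 2 * p 2 * q 6 - t ^ 3 * T ^ 2 * p 6 * q 2 + t * p 1 * q 3 - t * p 3 * q 1) * h3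
  · simp only [cr, fa, Matrix.cons_val]
    linear_combination (-t ^ 4 * T ^ 2 * p 4 * q 6 + t ^ 4 * T ^ 2 * p 6 * q 4 + t ^ 3 * T ^ 2 * p 4 * q 5 - t ^ 3 * T ^ 2 * p 5 * q 4 - t ^ 2 * T * p 3 * q 4 + t ^ 2 * T * p 4 * q 3) * h3
  · simp only [cr, fa, Matrix.cons_val]
    linear_combination (-t ^ 2 * p 3 * q 4 + t ^ 2 * p 4 * q 3) * h3
  · simp only [cr, fa, Matrix.cons_val]
    linear_combination (-t ^ 3 * T ^ 2 * p 5 * q 6 + t ^ 3 * T ^ 2 * p 6 * q 5 + t * p 1 * q 6 - t * p 6 * q 1) * h3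
  · simp only [cr, fa, Matrix.cons_val]
    linear_combination (-t * T * p 3 * q 6 + t * T * p 6 * q 3) * h3
  · simp only [cr, fa, Matrix.cons_val]
    linear_combination (t * p 3 * q 6 - t * p 6 * q 3) * h3
  · simp only [cr, fa, Matrix.cons_val]
    linear_combination (0) * h3

theorem lg_fa (h3 : (3 : K) = 0) (hs : ∀ t : K, σ (σ t) = t ^ 3) (t : K) {p q : Fin 7 → K} (h1 : cr p q = 0) (h2 : lg p q = fun i => σ (p i)) : lg (fa t (σ t) p) (fa t (σ t) q) = fun i => σ (fa t (σ t) p i) := by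
  have c0 := congrFun h1 0
  have c1 := congrFun h1 1
  have c2 := congrFun h1 2
  have c3 := congrFun h1 3
  have c4 := congrFun h1 4
  have c5 := congrFun h1 5
  have c6 := congrFun h1 6
  have l0 := congrFun h2 0
  have l1 := congrFun h2 1
  have l2 := congrFun h2 2
  have l3 := congrFun h2 3
  have l4 := congrFun h2 4
  have l5 := congrFun h2 5
  have l6 := congrFun h2 6
  simp only [cr, lg, Matrix.cons_val, Pi.zero_apply] at c0 c1 c2 c3 c4 c5 c6 l0 l1 l2 l3 l4 l5 l6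
  apply ext7
  · simp only [lg, fa, Matrix.cons_val, map_add, map_sub, map_mul, map_neg, map_pow, hs]
    linear_combination (-t * σ t) * c0 + (t ^ 2 * σ t) * c1 + (t ^ 3 * σ t ^ 2) * c3 + (t ^ 4 * σ t ^ 2) * c4 + (t ^ 4 * σ t ^ 3) * c5 + (t ^ 5 * σ t ^ 3) * c6 + l0 + (σ t) * l1 + (-t ^ 3 * σ t ^ 3) * l4 + (-t ^ 6 * σ t ^ 3) * l5 + (t ^ 6 * σ t ^ 4) * l6 + (-t ^ 6 * σ t ^ 3 * p 4 * q 6 + t ^ 6 * σ t ^ 3 * p 6 * q 4 + t ^ 4 * σ t ^ 2 * p 1 * q 6 - t ^ 4 * σ t ^ 2 * p 6 * q 1) * h3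
  · simp only [lg, fa, Matrix.cons_val, map_add, map_sub, map_mul, map_neg, map_pow, hs]
    linear_combination (-t) * c0 + (t ^ 2) * c1 + (-t ^ 3 * σ t) * c3 + (t ^ 4 * σ t) * c4 + (t ^ 4 * σ t ^ 2) * c5 + (t ^ 5 * σ t ^ 2) * c6 + l1 + (t ^ 3) * l2 + (t ^ 3 * σ t) * l3 + (-t ^ 3 * σ t ^ 2) * l4 + (-t ^ 6 * σ t ^ 3) * l6 + (-t ^ 3 * σ t * p 2 * q 4 + t ^ 3 * σ t * p 4 * q 2) * h3
  · simp only [lg, fa, Matrix.cons_val, map_add, map_sub, map_mul, map_neg, map_pow, hs]
    linear_combination (-t * σ t) * c4 + (t * σ t ^ 2) * c5 + (t ^ 2 * σ t ^ 2) * c6 + l2 + (σ t) * l3 + (-σ t ^ 2) * l4 + (t ^ 3 * σ t ^ 3) * l6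
  · simp only [lg, fa, Matrix.cons_val, map_add, map_sub, map_mul, map_neg, map_pow, hs]
    linear_combination (-t) * c4 + (-t * σ t) * c5 + (-t ^ 2 * σ t) * c6 + l3 + (σ t) * l4 + (-t ^ 3 * σ t * p 4 * q 6 + t ^ 3 * σ t * p 6 * q 4 + t ^ 2 * σ t * p 3 * q 6 + t ^ 2 * σ t * p 4 * q 5 - t ^ 2 * σ t * p 5 * q 4 - t ^ 2 * σ t * p 6 * q 3 + t * σ t * p 2 * q 6 - t * σ t * p 3 * q 5 + t * σ t * p 5 * q 3 - t * σ t * p 6 * q 2 - σ t * p 2 * q 5 + σ t * p 5 * q 2) * h3
  · simp only [lg, fa, Matrix.cons_val, map_add, map_sub, map_mul, map_neg, map_pow, hs]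
    linear_combination (-t) * c5 + (-t ^ 2) * c6 + l4 + (-t ^ 3) * l5 + (t ^ 3 * σ t) * l6
  · simp only [lg, fa, Matrix.cons_val, map_add, map_sub, map_mul, map_neg, map_pow, hs]
    linear_combination l5 + (-σ t) * l6
  · simp only [lg, fa, Matrix.cons_val, map_add, map_sub, map_mul, map_neg, map_pow, hs]
    linear_combination l6

theorem bl_fb (h3 : (3 : K) = 0) (t T : K) (p q : Fin 7 → K) : bl (fb t T p) (fb t T q) = bl p q := by
  simp only [bl, fb, Matrix.cons_val]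
  linear_combination (t * p 3 * q 5 + t * p 5 * q 3) * h3

theorem cr_fb (h3 : (3 : K) = 0) (t T : K) (p q : Fin 7 → K) : cr (fb t T p) (fb t T q) = fb t T (cr p q) := by
  apply ext7
  · simp only [cr, fb, Matrix.cons_val]
    linear_combination (t * T * p 3 * q 6 - t * T * p 6 * q 3 - t * p 2 * q 3 + t * p 3 * q 2) * h3
  · simp only [cr, fb, Matrix.cons_val]
    linear_combination (-t ^ 2 * p 3 * q 5 + t ^ 2 * p 5 * q 3) * h3
  · simp only [cr, fb, Matrix.cons_val]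
    linear_combination (0) * h3
  · simp only [cr, fb, Matrix.cons_val]
    linear_combination (-t * p 2 * q 6 + t * p 6 * q 2) * h3
  · simp only [cr, fb, Matrix.cons_val]
    linear_combination (-t * p 3 * q 6 + t * p 6 * q 3) * h3
  · simp only [cr, fb, Matrix.cons_val]
    linear_combination (0) * h3
  · simp only [cr, fb, Matrix.cons_val]
    linear_combination (0) * h3

theorem lg_fb (h3 : (3 : K) = 0) (hs : ∀ t : K, σ (σ t) = t ^ 3) (t : K) {p q : Fin 7 → K} (h1 : cr p q = 0) (h2 : lg p q = fun i => σ (p i)) : lg (fb t (σ t) p) (fb t (σ t) q) = fun i => σ (fb t (σ t) p i) := by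
  have c0 := congrFun h1 0
  have c1 := congrFun h1 1
  have c2 := congrFun h1 2
  have c3 := congrFun h1 3
  have c4 := congrFun h1 4
  have c5 := congrFun h1 5
  have c6 := congrFun h1 6
  have l0 := congrFun h2 0
  have l1 := congrFun h2 1
  have l2 := congrFun h2 2
  have l3 := congrFun h2 3
  have l4 := congrFun h2 4
  have l5 := congrFun h2 5
  have l6 := congrFun h2 6
  simp only [cr, lg, Matrix.cons_val, Pi.zero_apply] at c0 c1 c2 c3 c4 c5 c6 l0 l1 l2 l3 l4 l5 l6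
  apply ext7
  · simp only [lg, fb, Matrix.cons_val, map_add, map_sub, map_mul, map_neg, map_pow, hs]
    linear_combination (-t) * c0 + (-t ^ 2) * c2 + (t * σ t) * c4 + (-t ^ 2 * σ t) * c6 + l0 + (-σ t) * l2 + (-t ^ 3) * l4 + (-t ^ 3 * σ t) * l6
  · simp only [lg, fb, Matrix.cons_val, map_add, map_sub, map_mul, map_neg, map_pow, hs]
    linear_combination (-σ t) * c3 + l1 + (σ t) * l3 + (-σ t ^ 2) * l5 + (-σ t * p 2 * q 4 + σ t * p 4 * q 2) * h3
  · simp only [lg, fb, Matrix.cons_val, map_add, map_sub, map_mul, map_neg, map_pow, hs]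
    linear_combination (-t) * c4 + (t ^ 2) * c6 + l2 + (t ^ 3) * l6
  · simp only [lg, fb, Matrix.cons_val, map_add, map_sub, map_mul, map_neg, map_pow, hs]
    linear_combination (t) * c5 + l3 + (σ t) * l5
  · simp only [lg, fb, Matrix.cons_val, map_add, map_sub, map_mul, map_neg, map_pow, hs]
    linear_combination l4 + (σ t) * l6
  · simp only [lg, fb, Matrix.cons_val, map_add, map_sub, map_mul, map_neg, map_pow, hs]
    linear_combination l5
  · simp only [lg, fb, Matrix.cons_val, map_add, map_sub, map_mul, map_neg, map_pow, hs]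
    linear_combination l6

theorem bl_fc (h3 : (3 : K) = 0) (t T : K) (p q : Fin 7 → K) : bl (fc t T p) (fc t T q) = bl p q := by
  simp only [bl, fc, Matrix.cons_val]
  linear_combination (-t * p 3 * q 6 - t * p 6 * q 3) * h3

theorem cr_fc (h3 : (3 : K) = 0) (t T : K) (p q : Fin 7 → K) : cr (fc t T p) (fc t T q) = fc t T (cr p q) := by
  apply ext7
  · simp only [cr, fc, Matrix.cons_val]
    linear_combination (t ^ 2 * p 3 * q 6 - t ^ 2 * p 6 * q 3) * h3
  · simp only [cr, fc, Matrix.cons_val]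
    linear_combination (-t * p 3 * q 4 + t * p 4 * q 3) * h3
  · simp only [cr, fc, Matrix.cons_val]
    linear_combination (t * p 3 * q 5 - t * p 5 * q 3) * h3
  · simp only [cr, fc, Matrix.cons_val]
    linear_combination (t * p 4 * q 5 - t * p 5 * q 4) * h3
  · simp only [cr, fc, Matrix.cons_val]
    linear_combination (0) * h3
  · simp only [cr, fc, Matrix.cons_val]
    linear_combination (0) * h3
  · simp only [cr, fc, Matrix.cons_val]
    linear_combination (0) * h3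

theorem lg_fc (h3 : (3 : K) = 0) (hs : ∀ t : K, σ (σ t) = t ^ 3) (t : K) {p q : Fin 7 → K} (h1 : cr p q = 0) (h2 : lg p q = fun i => σ (p i)) : lg (fc t (σ t) p) (fc t (σ t) q) = fun i => σ (fc t (σ t) p i) := by
  have c0 := congrFun h1 0
  have c1 := congrFun h1 1
  have c2 := congrFun h1 2
  have c3 := congrFun h1 3
  have c4 := congrFun h1 4
  have c5 := congrFun h1 5
  have c6 := congrFun h1 6
  have l0 := congrFun h2 0
  have l1 := congrFun h2 1
  have l2 := congrFun h2 2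
  have l3 := congrFun h2 3
  have l4 := congrFun h2 4
  have l5 := congrFun h2 5
  have l6 := congrFun h2 6
  simp only [cr, lg, Matrix.cons_val, Pi.zero_apply] at c0 c1 c2 c3 c4 c5 c6 l0 l1 l2 l3 l4 l5 l6
  apply ext7
  · simp only [lg, fc, Matrix.cons_val, map_add, map_sub, map_mul, map_neg, map_pow, hs]
    linear_combination (t) * c1 + (-σ t) * c3 + (t ^ 2) * c4 + (t * σ t) * c6 + l0 + (-σ t) * l3 + (-t ^ 3) * l5 + (-σ t ^ 2) * l6 + (-σ t * p 1 * q 5 + σ t * p 5 * q 1) * h3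
  · simp only [lg, fc, Matrix.cons_val, map_add, map_sub, map_mul, map_neg, map_pow, hs]
    linear_combination (t) * c2 + (-t ^ 2) * c5 + l1 + (-σ t) * l4 + (t ^ 3) * l6
  · simp only [lg, fc, Matrix.cons_val, map_add, map_sub, map_mul, map_neg, map_pow, hs]
    linear_combination l2 + (σ t) * l5
  · simp only [lg, fc, Matrix.cons_val, map_add, map_sub, map_mul, map_neg, map_pow, hs]
    linear_combination l3 + (-σ t) * l6
  · simp only [lg, fc, Matrix.cons_val, map_add, map_sub, map_mul, map_neg, map_pow, hs]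
    linear_combination l4
  · simp only [lg, fc, Matrix.cons_val, map_add, map_sub, map_mul, map_neg, map_pow, hs]
    linear_combination l5
  · simp only [lg, fc, Matrix.cons_val, map_add, map_sub, map_mul, map_neg, map_pow, hs]
    linear_combination l6

/-- the map of `nn` on vectors -/
def fn (p : Fin 7 → K) : Fin 7 → K := ![-p 6, -p 5, -p 4, -p 3, -p 2, -p 1, -p 0]

/-- the map of the torus on vectors (`k`, `l`: `κ`, `σ κ`) -/
def fh (k l : K) (p : Fin 7 → K) : Fin 7 → K := ![k * p 0, l / k * p 1, k ^ 2 / l * p 2, p 3, l / k ^ 2 * p 4, k / l * p 5, p 6 / k]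

theorem bl_fn (p q : Fin 7 → K) : bl (fn p) (fn q) = bl p q := by
  simp only [bl, fn, Matrix.cons_val]
  ring

theorem cr_fn (p q : Fin 7 → K) : cr (fn p) (fn q) = fn (cr p q) := by
  apply ext7 <;> simp only [cr, fn, Matrix.cons_val] <;> ring

theorem lg_fn {p q : Fin 7 → K} (h2 : lg p q = fun i => σ (p i)) : lg (fn p) (fn q) = fun i => σ (fn p i) := by
  have l0 := congrFun h2 0
  have l1 := congrFun h2 1
  have l2 := congrFun h2 2
  have l3 := congrFun h2 3
  have l4 := congrFun h2 4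
  have l5 := congrFun h2 5
  have l6 := congrFun h2 6
  simp only [lg, Matrix.cons_val] at l0 l1 l2 l3 l4 l5 l6
  apply ext7
  · simp only [lg, fn, Matrix.cons_val, map_neg]
    linear_combination -l6
  · simp only [lg, fn, Matrix.cons_val, map_neg]
    linear_combination -l5
  · simp only [lg, fn, Matrix.cons_val, map_neg]
    linear_combination -l4
  · simp only [lg, fn, Matrix.cons_val, map_neg]
    linear_combination -l3
  · simp only [lg, fn, Matrix.cons_val, map_neg]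
    linear_combination -l2
  · simp only [lg, fn, Matrix.cons_val, map_neg]
    linear_combination -l1
  · simp only [lg, fn, Matrix.cons_val, map_neg]
    linear_combination -l0

theorem bl_fh {k l : K} (hk : k ≠ 0) (hl : l ≠ 0) (p q : Fin 7 → K) : bl (fh k l p) (fh k l q) = bl p q := by
  simp only [bl, fh, Matrix.cons_val]
  field_simp

theorem cr_fh {k l : K} (hk : k ≠ 0) (hl : l ≠ 0) (p q : Fin 7 → K) : cr (fh k l p) (fh k l q) = fh k l (cr p q) := by
  apply ext7 <;> simp only [cr, fh, Matrix.cons_val] <;> field_simp <;> ring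

theorem lg_fh (hs : ∀ t : K, σ (σ t) = t ^ 3) {k : K} (hk : k ≠ 0) {p q : Fin 7 → K} (h2 : lg p q = fun i => σ (p i)) : lg (fh k (σ k) p) (fh k (σ k) q) = fun i => σ (fh k (σ k) p i) := by
  have hl : σ k ≠ 0 := by simpa using hk
  have l0 := congrFun h2 0
  have l1 := congrFun h2 1
  have l2 := congrFun h2 2
  have l3 := congrFun h2 3
  have l4 := congrFun h2 4
  have l5 := congrFun h2 5
  have l6 := congrFun h2 6
  simp only [lg, Matrix.cons_val] at l0 l1 l2 l3 l4 l5 l6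
  apply ext7
  · simp only [lg, fh, Matrix.cons_val, map_mul, map_div₀, map_pow, hs, ← l0]
    field_simp
    try ring
  · simp only [lg, fh, Matrix.cons_val, map_mul, map_div₀, map_pow, hs, ← l1]
    field_simp
    try ring
  · simp only [lg, fh, Matrix.cons_val, map_mul, map_div₀, map_pow, hs, ← l2]
    field_simp
    try ring
  · simp only [lg, fh, Matrix.cons_val, map_mul, map_div₀, map_pow, hs, ← l3]
    field_simp
    try ring
  · simp only [lg, fh, Matrix.cons_val, map_mul, map_div₀, map_pow, hs, ← l4]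
    field_simp
    try ring
  · simp only [lg, fh, Matrix.cons_val, map_mul, map_div₀, map_pow, hs, ← l5]
    field_simp
    try ring
  · simp only [lg, fh, Matrix.cons_val, map_mul, map_div₀, map_pow, hs, ← l6]
    field_simp
    try ring

end Pool.Agent.ThRee
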